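import Mathlib
import Pool.Agent.Helper234.LInf.Rep
import Pool.Agent.Helper234.LInfS.Dyadic

open MeasureTheory Filter Topology

namespace Pool.Agent.Q197.LB

open Pool.Agent.Helper234.LInfS Pool.Agent.Helper234.LInf

theorem measurable_idx (l : ℕ) : Measurable (idx l) := by
  unfold idx
  exact Nat.measurable_floor.comp (measurable_const.mul measurable_id)

theorem idx_half (l : ℕ) (t : ℝ) : idx l t = idx (l + 1) t / 2 := by
  unfold idx
  rw [← Nat.floor_div_ofNat]
  congr 1
  rw [pow_succ]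
  ring

/-- mass of dyadic pieces -/
theorem I01_piece (l k : ℕ) (hk : k < 2 ^ l) : I01 (idx l ⁻¹' {k}) = ENNReal.ofReal ((2 ^ l)⁻¹) := by
  have h1 : idx l ⁻¹' {k} =ᵐ[I01] Dy l k := by
    filter_upwards [I01_ae_mem] with t ht
    have := mem_Dy_iff (m := l) (k := k) ht.1
    exact propext (by
      show idx l t = k ↔ t ∈ Dy l k
      rw [this]; rfl)
  rw [measure_congr h1]
  unfold I01
  have hsub : Dy l k ⊆ Set.Icc 0 1 := by
    intro t ht
    unfold Dy at ht
    have h2 : (0 : ℝ) < 2 ^ l := by positivity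
    refine ⟨le_trans (by positivity) ht.1, ht.2.le.trans ?_⟩
    rw [div_le_one h2]
    have : k + 1 ≤ 2 ^ l := hk
    exact_mod_cast this
  rw [Measure.restrict_apply (measurableSet_Dy l k), Set.inter_eq_left.2 hsub]
  unfold Dy
  rw [Real.volume_Ico]
  congr 1
  rw [← sub_div, add_sub_cancel_left, one_div]

theorem I01_piece_zero (l k : ℕ) (hk : ¬ k < 2 ^ l) : I01 (idx l ⁻¹' {k}) = 0 := by
  rw [measure_eq_zero_iff_ae_notMem]
  filter_upwards [I01_ae_mem] with t ht hk2
  apply hk
  have h1 : idx l t = k := hk2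
  rw [← h1]
  unfold idx
  rw [Nat.floor_lt (by have := ht.1; positivity)]
  push_cast
  have : (0 : ℝ) < 2 ^ l := by positivity
  nlinarith [ht.2]

/-- the pair of indices -/
noncomputable def idx2 (l : ℕ) (p : ℝ × ℝ) : ℕ × ℕ := (idx l p.1, idx l p.2)

theorem measurable_idx2 (l : ℕ) : Measurable (idx2 l) :=
  ((measurable_idx l).comp measurable_fst).prodMk ((measurable_idx l).comp measurable_snd)

theorem idx2_half (l : ℕ) (p : ℝ × ℝ) :
    idx2 l p = ((idx2 (l + 1) p).1 / 2, (idx2 (l + 1) p).2 / 2) := by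
  unfold idx2
  rw [idx_half l, idx_half l]

/-- the dyadic filtration of the square -/
noncomputable def filt : Filtration ℕ (inferInstance : MeasurableSpace (ℝ × ℝ)) where
  seq l := MeasurableSpace.comap (idx2 l) ⊤
  mono' := by
    refine monotone_nat_of_le_succ fun l => ?_
    have h : idx2 l = (fun y : ℕ × ℕ => (y.1 / 2, y.2 / 2)) ∘ idx2 (l + 1) := by
      funext p
      exact idx2_half l p
    show MeasurableSpace.comap (idx2 l) ⊤ ≤ MeasurableSpace.comap (idx2 (l + 1)) ⊤
    rw [h, ← MeasurableSpace.comap_comp]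
    exact MeasurableSpace.comap_mono le_top
  le' := fun l s hs => by
    obtain ⟨S, _, rfl⟩ := hs
    exact measurable_idx2 l MeasurableSet.of_discrete

/-- a martingale given by a consistent dyadic array converges -/
theorem mart (c : ℕ → ℕ → ℕ → ℝ)
    (hc : ∀ l i k, i < 2 ^ l → k < 2 ^ l → c l i k = (c (l + 1) (2 * i) (2 * k) +
      c (l + 1) (2 * i) (2 * k + 1) + c (l + 1) (2 * i + 1) (2 * k) +
      c (l + 1) (2 * i + 1) (2 * k + 1)) / 4) (R : NNReal)
    (hb : ∀ l, eLpNorm (fun p : ℝ × ℝ => c l (idx l p.1) (idx l p.2)) 1 (I01.prod I01) ≤ R) :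
    ∃ g : ℝ × ℝ → ℝ, Measurable g ∧ ∀ᵐ p ∂(I01.prod I01),
      Tendsto (fun l => c l (idx l p.1) (idx l p.2)) atTop (𝓝 (g p)) := by
  set μ : Measure (ℝ × ℝ) := I01.prod I01 with hμ
  set f : ℕ → ℝ × ℝ → ℝ := fun l p => c l (idx l p.1) (idx l p.2) with hf
  have hmf : ∀ l, Measurable (f l) := fun l =>
    (Measurable.of_discrete (f := fun y : ℕ × ℕ => c l y.1 y.2)).comp (measurable_idx2 l)
  have hsf : ∀ l, StronglyMeasurable[filt l] (f l) := by
    intro l
    have h1 : @Measurable _ _ (MeasurableSpace.comap (idx2 l) ⊤) ⊤ (idx2 l) :=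
      comap_measurable (idx2 l)
    have h3 : @Measurable _ _ (MeasurableSpace.comap (idx2 l) ⊤) _
        ((fun y : ℕ × ℕ => c l y.1 y.2) ∘ idx2 l) := measurable_from_top.comp h1
    exact h3.stronglyMeasurable
  have hint : ∀ l, Integrable (f l) μ := fun l => by
    rw [← memLp_one_iff_integrable]
    exact ⟨(hmf l).aestronglyMeasurable, (hb l).trans_lt ENNReal.coe_lt_top⟩
  have hset : ∀ l (y : ℕ × ℕ), MeasurableSet (idx2 l ⁻¹' {y}) := fun l y =>
    measurable_idx2 l (measurableSet_singleton y)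
  have hrect : ∀ l (y : ℕ × ℕ), idx2 l ⁻¹' {y} = (idx l ⁻¹' {y.1}) ×ˢ (idx l ⁻¹' {y.2}) := by
    intro l y
    ext p
    simp only [Set.mem_preimage, Set.mem_singleton_iff, Set.mem_prod, idx2, Prod.ext_iff]
  have hmass : ∀ l (y : ℕ × ℕ), y.1 < 2 ^ l → y.2 < 2 ^ l →
      μ.real (idx2 l ⁻¹' {y}) = (2 ^ l)⁻¹ * (2 ^ l)⁻¹ := by
    intro l y h1 h2
    rw [Measure.real, hrect, hμ, Measure.prod_prod, I01_piece l _ h1, I01_piece l _ h2,
      ENNReal.toReal_mul, ENNReal.toReal_ofReal (by positivity)]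
  have hmass0 : ∀ l (y : ℕ × ℕ), ¬ (y.1 < 2 ^ l ∧ y.2 < 2 ^ l) → μ (idx2 l ⁻¹' {y}) = 0 := by
    intro l y h
    rw [hrect, hμ, Measure.prod_prod]
    by_cases h1 : y.1 < 2 ^ l
    · have h2 : ¬ y.2 < 2 ^ l := fun h2 => h ⟨h1, h2⟩
      rw [I01_piece_zero l _ h2, mul_zero]
    · rw [I01_piece_zero l _ h1, zero_mul]
  have hpiece : ∀ l (y : ℕ × ℕ), ∫ p in idx2 l ⁻¹' {y}, f l p ∂μ =
      μ.real (idx2 l ⁻¹' {y}) * c l y.1 y.2 := by
    intro l y
    rw [setIntegral_congr_fun (g := fun _ => c l y.1 y.2) (hset l y) (fun p hp => by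
      have h : idx2 l p = y := hp
      show c l (idx l p.1) (idx l p.2) = c l y.1 y.2
      rw [← h]; rfl)]
    rw [setIntegral_const, smul_eq_mul]
  have hstep : ∀ l (y : ℕ × ℕ), ∫ p in idx2 l ⁻¹' {y}, f l p ∂μ =
      ∫ p in idx2 l ⁻¹' {y}, f (l + 1) p ∂μ := by
    intro l y
    by_cases hy : y.1 < 2 ^ l ∧ y.2 < 2 ^ l
    · obtain ⟨h1, h2⟩ := hy
      let t : Finset (ℕ × ℕ) := {(2 * y.1, 2 * y.2), (2 * y.1, 2 * y.2 + 1),
        (2 * y.1 + 1, 2 * y.2), (2 * y.1 + 1, 2 * y.2 + 1)}
      have hU : idx2 l ⁻¹' {y} = ⋃ z ∈ t, idx2 (l + 1) ⁻¹' {z} := by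
        ext p
        rw [Set.mem_preimage, Set.mem_singleton_iff, idx2_half]
        simp only [t, Set.mem_iUnion, Set.mem_preimage, Set.mem_singleton_iff, exists_prop,
          exists_eq_right', Finset.mem_insert, Finset.mem_singleton]
        generalize idx2 (l + 1) p = w
        obtain ⟨w1, w2⟩ := w
        obtain ⟨y1, y2⟩ := y
        simp only [Prod.mk.injEq]
        omega
      rw [hpiece, hU, integral_biUnion_finset t (fun z _ => hset (l + 1) z) ?_
        (fun z _ => (hint (l + 1)).integrableOn)]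
      · rw [← hU, hmass l y h1 h2]
        have hne : ∀ a b : ℕ, (2 * a : ℕ) ≠ 2 * b + 1 := by omega
        have hne' : ∀ a : ℕ, (2 * a : ℕ) ≠ 2 * a + 1 := by omega
        have ht : ∀ F : ℕ × ℕ → ℝ, ∑ z ∈ t, F z = F (2 * y.1, 2 * y.2) +
            F (2 * y.1, 2 * y.2 + 1) + F (2 * y.1 + 1, 2 * y.2) +
            F (2 * y.1 + 1, 2 * y.2 + 1) := by
          intro F
          simp only [t]
          rw [Finset.sum_insert, Finset.sum_insert, Finset.sum_insert, Finset.sum_singleton]
          · ring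
          all_goals
            simp only [Finset.mem_insert, Finset.mem_singleton, Prod.mk.injEq]
            omega
        rw [ht]
        simp only [hpiece]
        have hp : (2 : ℕ) ^ (l + 1) = 2 * 2 ^ l := by rw [pow_succ]; ring
        rw [hmass (l + 1) _ (by show 2 * y.1 < _; omega) (by show 2 * y.2 < _; omega),
          hmass (l + 1) _ (by show 2 * y.1 < _; omega) (by show 2 * y.2 + 1 < _; omega),
          hmass (l + 1) _ (by show 2 * y.1 + 1 < _; omega) (by show 2 * y.2 < _; omega),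
          hmass (l + 1) _ (by show 2 * y.1 + 1 < _; omega) (by show 2 * y.2 + 1 < _; omega)]
        rw [hc l y.1 y.2 h1 h2, pow_succ]
        have : (2 : ℝ) ^ l ≠ 0 := by positivity
        field_simp
        ring
      · intro a _ b _ hab
        refine Set.disjoint_left.2 fun p h1 h2 => hab ?_
        simp only [Set.mem_preimage, Set.mem_singleton_iff] at h1 h2
        rw [← h1, ← h2]
    · have h0 : μ.restrict (idx2 l ⁻¹' {y}) = 0 := Measure.restrict_eq_zero.2 (hmass0 l y hy)
      rw [h0]; simp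
  have hset2 : ∀ l (s : Set (ℝ × ℝ)), MeasurableSet[filt l] s →
      ∫ p in s, f l p ∂μ = ∫ p in s, f (l + 1) p ∂μ := by
    intro l s hs
    obtain ⟨S, _, rfl⟩ := hs
    have hU : idx2 l ⁻¹' S = ⋃ y : S, idx2 l ⁻¹' {(y : ℕ × ℕ)} := by
      ext p
      simp only [Set.mem_preimage, Set.mem_iUnion, Set.mem_singleton_iff, Subtype.exists,
        exists_prop, exists_eq_right']
    have hd : Pairwise (Function.onFun Disjoint fun y : S => idx2 l ⁻¹' {(y : ℕ × ℕ)}) := by
      intro a b hab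
      refine Set.disjoint_left.2 fun p h1 h2 => hab ?_
      simp only [Set.mem_preimage, Set.mem_singleton_iff] at h1 h2
      exact Subtype.ext (h1.symm.trans h2)
    have hms : ∀ y : S, MeasurableSet (idx2 l ⁻¹' {(y : ℕ × ℕ)}) := fun y => hset l y
    rw [hU, integral_iUnion hms hd (hint l).integrableOn,
      integral_iUnion hms hd (hint (l + 1)).integrableOn]
    exact tsum_congr fun y => hstep l y
  have hM : Martingale f filt μ := by
    refine martingale_nat hsf hint fun l => ?_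
    refine ae_eq_condExp_of_forall_setIntegral_eq (filt.le l) (hint (l + 1))
      (fun s _ _ => (hint l).integrableOn) (fun s hs _ => hset2 l s hs)
      (hsf l).aestronglyMeasurable
  have hlim := hM.submartingale.ae_tendsto_limitProcess hb
  refine ⟨filt.limitProcess f μ, ?_, hlim⟩
  have h1 : StronglyMeasurable[⨆ n, filt n] (filt.limitProcess f μ) :=
    Filtration.stronglyMeasurable_limitProcess
  have h2 : (⨆ n, filt n) ≤ (inferInstance : MeasurableSpace (ℝ × ℝ)) :=
    iSup_le fun n => filt.le n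
  exact (h1.mono h2).measurable

end Pool.Agent.Q197.LB
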