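import Mathlib
import Pool.Agent.Q197.LB.Mart

open MeasureTheory Filter Topology

namespace Pool.Agent.Q197.LB

open Pool.Agent.Helper234.LInfS Pool.Agent.Helper234.LInf

section X
variable {X : Type*} [NormedAddCommGroup X] [NormedSpace ℝ X]

theorem measurableSet_piece (l i : ℕ) : MeasurableSet (idx l ⁻¹' {i}) :=
  measurable_idx l (measurableSet_singleton i)

theorem piece_ae (l i : ℕ) : (idx l ⁻¹' {i} : Set ℝ) =ᵐ[I01] dyad l i := by
  filter_upwards [I01_ae_mem] with t ht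
  have := mem_Dy_iff (m := l) (k := i) ht.1
  exact propext (by
    show idx l t = i ↔ t ∈ Dy l i
    rw [this]; rfl)

theorem real_piece (l i : ℕ) (hi : i < 2 ^ l) : I01.real (idx l ⁻¹' {i}) = (2 ^ l)⁻¹ := by
  rw [Measure.real, I01_piece l i hi, ENNReal.toReal_ofReal (by positivity)]

theorem real_piece_le (l i : ℕ) : I01.real (idx l ⁻¹' {i}) ≤ (2 ^ l)⁻¹ := by
  by_cases hi : i < 2 ^ l
  · exact (real_piece l i hi).le
  · rw [Measure.real, I01_piece_zero l i hi, ENNReal.toReal_zero]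
    positivity

theorem idx_lt (l : ℕ) {t : ℝ} (ht : t ∈ Set.Ico (0 : ℝ) 1) : idx l t < 2 ^ l := by
  unfold idx
  rw [Nat.floor_lt (by have := ht.1; positivity)]
  push_cast
  have : (0 : ℝ) < 2 ^ l := by positivity
  nlinarith [ht.2]

/-- splitting an average into two -/
theorem split_avg (u : ℝ → X) (hu : Integrable u I01) (l i : ℕ) :
    (2 : ℝ) ^ l • ∫ s in idx l ⁻¹' {i}, u s ∂I01 = (1 / 2 : ℝ) •
      ((2 : ℝ) ^ (l + 1) • ∫ s in idx (l + 1) ⁻¹' {2 * i}, u s ∂I01 +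
        (2 : ℝ) ^ (l + 1) • ∫ s in idx (l + 1) ⁻¹' {2 * i + 1}, u s ∂I01) := by
  have hU : idx l ⁻¹' {i} = idx (l + 1) ⁻¹' {2 * i} ∪ idx (l + 1) ⁻¹' {2 * i + 1} := by
    ext t
    simp only [Set.mem_preimage, Set.mem_singleton_iff, Set.mem_union]
    rw [idx_half]
    omega
  have hd : Disjoint (idx (l + 1) ⁻¹' {2 * i} : Set ℝ) (idx (l + 1) ⁻¹' {2 * i + 1}) := by
    refine Set.disjoint_left.2 fun t h1 h2 => ?_
    simp only [Set.mem_preimage, Set.mem_singleton_iff] at h1 h2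
    omega
  rw [hU, setIntegral_union hd (measurableSet_piece _ _) hu.integrableOn hu.integrableOn,
    ← smul_add, smul_smul]
  congr 1
  rw [pow_succ]
  ring

theorem idx_le (l m : ℕ) (h : l ≤ m) (t : ℝ) : idx l t = idx m t / 2 ^ (m - l) := by
  obtain ⟨d, rfl⟩ := Nat.exists_eq_add_of_le h
  rw [Nat.add_sub_cancel_left]
  induction d with
  | zero => simp
  | succ d ih =>
    rw [ih (Nat.le_add_right _ _), idx_half (l + d), ← add_assoc, pow_succ, Nat.div_div_eq_div_mul,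
      mul_comm]

/-- averages are conditional expectations -/
theorem cond_avg [CompleteSpace X] (u : ℝ → X) (hu : Integrable u I01) (l m i : ℕ) (h : l ≤ m) :
    ∫ s in idx l ⁻¹' {i}, (2 : ℝ) ^ m • ∫ t in idx m ⁻¹' {idx m s}, u t ∂I01 ∂I01 =
      ∫ s in idx l ⁻¹' {i}, u s ∂I01 := by
  have hv : Integrable (fun s => (2 : ℝ) ^ m • ∫ t in idx m ⁻¹' {idx m s}, u t ∂I01) I01 := by
    refine Integrable.of_bound ?_ (2 ^ m * ∫ t, ‖u t‖ ∂I01) (Eventually.of_forall fun s => ?_)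
    · exact ((StronglyMeasurable.of_discrete (f := fun j : ℕ =>
        (2 : ℝ) ^ m • ∫ t in idx m ⁻¹' {j}, u t ∂I01)).comp_measurable
        (measurable_idx m)).aestronglyMeasurable
    · rw [norm_smul, Real.norm_eq_abs, abs_of_pos (by positivity)]
      refine mul_le_mul_of_nonneg_left ?_ (by positivity)
      refine (norm_integral_le_integral_norm _).trans ?_
      exact setIntegral_le_integral hu.norm (Eventually.of_forall fun t => norm_nonneg _)
  have hU : idx l ⁻¹' {i} = ⋃ j : {j : ℕ // j / 2 ^ (m - l) = i}, idx m ⁻¹' {(j : ℕ)} := by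
    ext t
    simp only [Set.mem_preimage, Set.mem_iUnion, Set.mem_singleton_iff, Subtype.exists,
      exists_prop, exists_eq_right']
    rw [idx_le l m h]
  have hd : Pairwise (Function.onFun Disjoint
      fun j : {j : ℕ // j / 2 ^ (m - l) = i} => (idx m ⁻¹' {(j : ℕ)} : Set ℝ)) := by
    intro a b hab
    refine Set.disjoint_left.2 fun p h1 h2 => hab ?_
    simp only [Set.mem_preimage, Set.mem_singleton_iff] at h1 h2
    exact Subtype.ext (h1.symm.trans h2)
  have hms : ∀ j : {j : ℕ // j / 2 ^ (m - l) = i}, MeasurableSet (idx m ⁻¹' {(j : ℕ)} : Set ℝ) :=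
    fun j => measurableSet_piece _ _
  rw [hU, integral_iUnion hms hd hv.integrableOn, integral_iUnion hms hd hu.integrableOn]
  refine tsum_congr fun j => ?_
  by_cases hj : (j : ℕ) < 2 ^ m
  · rw [setIntegral_congr_fun (g := fun _ => (2 : ℝ) ^ m • ∫ t in idx m ⁻¹' {(j : ℕ)}, u t ∂I01)
      (measurableSet_piece _ _) (fun s hs => by
        have : idx m s = j := hs
        simp only [this])]
    rw [setIntegral_const, real_piece m j hj, smul_smul, inv_mul_cancel₀ (by positivity),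
      one_smul]
  · have h0 : I01.restrict (idx m ⁻¹' {(j : ℕ)}) = 0 :=
      Measure.restrict_eq_zero.2 (I01_piece_zero m j hj)
    rw [h0]; simp

/-- almost everywhere convergence of the dyadic averages -/
theorem dyadic_int [CompleteSpace X] (f : ℝ → X) (hfint : Integrable f I01) :
    ∀ᵐ t ∂I01, Tendsto (fun m : ℕ => (2 : ℝ) ^ m • ∫ s in idx m ⁻¹' {idx m t}, f s ∂I01) atTop
      (𝓝 (f t)) := by
  set g : ℝ → X := (Set.Icc (0:ℝ) 1).indicator (fun s => f s) with hg
  have hgint : Integrable g volume := by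
    rw [hg, integrable_indicator_iff measurableSet_Icc]
    exact hfint
  have hae := LocallyIntegrable.ae_hasDerivAt_integral hgint.locallyIntegrable
  have h1 : ∀ᵐ t : ℝ, t ≠ 1 := by simp [ae_iff, measure_singleton]
  suffices hsuff : ∀ᵐ t : ℝ, t ∈ Set.Icc (0:ℝ) 1 →
      Tendsto (fun m : ℕ => (2 : ℝ) ^ m • ∫ s in idx m ⁻¹' {idx m t}, f s ∂I01) atTop (𝓝 (f t)) from
    (ae_restrict_iff' measurableSet_Icc).mpr hsuff
  have hgen : ∀ (φ : ℝ → X) (D : Set ℝ), MeasurableSet D → D ⊆ Set.Icc (0:ℝ) 1 →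
      ∫ s in D, φ s ∂I01 = ∫ s in D, φ s := by
    intro φ D hD hsub
    unfold I01
    rw [Measure.restrict_restrict hD, Set.inter_eq_left.mpr hsub]
  filter_upwards [hae, h1] with t ht ht1 htm
  have ht0 : 0 ≤ t := htm.1
  have htlt : t < 1 := lt_of_le_of_ne htm.2 ht1
  set F : ℝ → X := fun x => ∫ s in (0:ℝ)..x, g s with hF
  have hder : HasDerivAt F (g t) t := ht 0
  have hgt : g t = f t := by rw [hg, Set.indicator_of_mem htm]
  rw [← hgt]
  -- the dyadic endpoints
  have hpos : ∀ m : ℕ, (0:ℝ) < 2 ^ m := fun m => by positivity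
  have hle : ∀ m : ℕ, ((idx m t : ℕ) : ℝ) / 2 ^ m ≤ t := by
    intro m
    rw [div_le_iff₀ (hpos m)]
    have := Nat.floor_le (mul_nonneg (hpos m).le ht0)
    unfold idx; linarith
  have hlt : ∀ m : ℕ, t < (((idx m t : ℕ) : ℝ) + 1) / 2 ^ m := by
    intro m
    rw [lt_div_iff₀ (hpos m)]
    have := Nat.lt_floor_add_one ((2:ℝ) ^ m * t)
    unfold idx; linarith
  have hle1 : ∀ m : ℕ, (((idx m t : ℕ) : ℝ) + 1) / 2 ^ m ≤ 1 := by
    intro m
    rw [div_le_one (hpos m)]
    have h2 : idx m t < 2 ^ m := by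
      unfold idx
      rw [Nat.floor_lt (mul_nonneg (hpos m).le ht0)]
      push_cast
      nlinarith [hpos m]
    have : idx m t + 1 ≤ 2 ^ m := h2
    exact_mod_cast this
  have hge0 : ∀ m : ℕ, (0:ℝ) ≤ ((idx m t : ℕ) : ℝ) / 2 ^ m := fun m => by positivity
  have hint : ∀ m : ℕ, ∫ s in idx m ⁻¹' {idx m t}, f s ∂I01
      = F ((((idx m t : ℕ) : ℝ) + 1) / 2 ^ m) - F (((idx m t : ℕ) : ℝ) / 2 ^ m) := by
    intro m
    rw [setIntegral_congr_set (piece_ae m (idx m t))]
    set a := ((idx m t : ℕ) : ℝ) / 2 ^ m with ha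
    set b := (((idx m t : ℕ) : ℝ) + 1) / 2 ^ m with hb
    have hab : a ≤ b := (hle m).trans (hlt m).le
    have hsub : dyad m (idx m t) ⊆ Set.Icc (0:ℝ) 1 := by
      intro s hs
      exact ⟨(hge0 m).trans hs.1, hs.2.le.trans (hle1 m)⟩
    rw [hgen (fun s => f s) _ (measurableSet_dyad _ _) hsub]
    simp only [hF]
    rw [intervalIntegral.integral_interval_sub_left (hgint.intervalIntegrable) (hgint.intervalIntegrable),
      intervalIntegral.integral_of_le hab, ← integral_Ico_eq_integral_Ioc]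
    apply setIntegral_congr_fun measurableSet_Ico
    intro s hs
    rw [hg, Set.indicator_of_mem (hsub hs)]
  rw [Metric.tendsto_atTop]
  intro ε hε
  have hlo := hder.isLittleO
  rw [Asymptotics.isLittleO_iff] at hlo
  have h3 := hlo (show (0:ℝ) < ε / 4 by positivity)
  obtain ⟨δ, hδ, hball⟩ := Metric.eventually_nhds_iff.mp h3
  obtain ⟨N, hN⟩ := exists_pow_lt_of_lt_one hδ (show (1/2 : ℝ) < 1 by norm_num)
  refine ⟨N, fun m hm => ?_⟩
  set a := ((idx m t : ℕ) : ℝ) / 2 ^ m with ha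
  set b := (((idx m t : ℕ) : ℝ) + 1) / 2 ^ m with hb
  have hba : b - a = 1 / 2 ^ m := by rw [ha, hb]; ring
  have hsmall : (1:ℝ) / 2 ^ m < δ := by
    have h5 : (1/2 : ℝ) ^ m ≤ (1/2) ^ N := pow_le_pow_of_le_one (by norm_num) (by norm_num) hm
    rw [one_div_pow] at h5
    linarith
  have hat : |a - t| ≤ 1 / 2 ^ m := by
    rw [abs_le]; constructor <;> linarith [hle m, hlt m]
  have hbt : |b - t| ≤ 1 / 2 ^ m := by
    rw [abs_le]; constructor <;> linarith [hle m, hlt m]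
  have ea := hball (y := a) (by rw [Real.dist_eq]; linarith)
  have eb := hball (y := b) (by rw [Real.dist_eq]; linarith)
  rw [Real.norm_eq_abs] at ea eb
  rw [dist_eq_norm, hint m]
  have h6 : (2:ℝ) ^ m • (F b - F a) - g t
      = (2:ℝ) ^ m • ((F b - F t - (b - t) • g t) - (F a - F t - (a - t) • g t)) := by
    have h7 : (F b - F t - (b - t) • g t) - (F a - F t - (a - t) • g t) = (F b - F a) - (b - a) • g t := by
      simp only [sub_smul]; abel
    have h9 : (2:ℝ) ^ m • (F b - F a - (b - a) • g t) = (2:ℝ) ^ m • (F b - F a) - (2:ℝ) ^ m • ((b - a) • g t) :=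
      smul_sub _ _ _
    rw [h7, h9, hba, smul_smul, mul_one_div_cancel (hpos m).ne', one_smul]
  rw [h6, norm_smul, Real.norm_eq_abs, abs_of_pos (hpos m)]
  have h8 : ‖(F b - F t - (b - t) • g t) - (F a - F t - (a - t) • g t)‖ ≤ ε / 4 * (1 / 2 ^ m) + ε / 4 * (1 / 2 ^ m) := by
    refine (norm_sub_le _ _).trans (add_le_add (eb.trans ?_) (ea.trans ?_))
    · exact mul_le_mul_of_nonneg_left hbt (by positivity)
    · exact mul_le_mul_of_nonneg_left hat (by positivity)
  calc (2:ℝ) ^ m * ‖(F b - F t - (b - t) • g t) - (F a - F t - (a - t) • g t)‖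
      ≤ 2 ^ m * (ε / 4 * (1 / 2 ^ m) + ε / 4 * (1 / 2 ^ m)) := mul_le_mul_of_nonneg_left h8 (hpos m).le
    _ = ε / 2 := by field_simp; ring
    _ < ε := by linarith

end X

section ops
variable {𝕜 : Type} [RCLike 𝕜] {X : Type*} [NormedAddCommGroup X] [NormedSpace 𝕜 X]

theorem integrable_Linf (f : Lp X ⊤ I01) : Integrable (fun t => f t) I01 :=
  (Lp.memLp f).integrable le_top

/-- the averaging operators of a Bochner space -/
theorem exists_avg (𝕜 : Type) [RCLike 𝕜] {X : Type*} [NormedAddCommGroup X] [NormedSpace 𝕜 X]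
    [NormedSpace ℝ X] [SMulCommClass ℝ 𝕜 X] (l i : ℕ) :
    ∃ T : Lp X ⊤ I01 →L[𝕜] X, (∀ f, T f = (2 : ℝ) ^ l • ∫ s in idx l ⁻¹' {i}, f s ∂I01) ∧
      ∀ f, ‖T f‖ ≤ 1 * ‖f‖ := by
  let T0 : Lp X ⊤ I01 →ₗ[𝕜] X :=
    { toFun := fun f => (2 : ℝ) ^ l • ∫ s in idx l ⁻¹' {i}, f s ∂I01
      map_add' := by
        intro f g
        rw [← smul_add, ← integral_add (integrable_Linf f).integrableOn
          (integrable_Linf g).integrableOn]
        congr 1
        exact integral_congr_ae (ae_restrict_of_ae (Lp.coeFn_add f g))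
      map_smul' := by
        intro c f
        have e : ∫ t in idx l ⁻¹' {i}, (c • f : Lp X ⊤ I01) t ∂I01 =
            c • ∫ t in idx l ⁻¹' {i}, f t ∂I01 := by
          rw [← integral_smul]
          exact integral_congr_ae (ae_restrict_of_ae (Lp.coeFn_smul c f))
        rw [e, RingHom.id_apply, smul_comm] }
  have hb : ∀ f, ‖T0 f‖ ≤ 1 * ‖f‖ := by
    intro f
    show ‖(2 : ℝ) ^ l • ∫ s in idx l ⁻¹' {i}, f s ∂I01‖ ≤ 1 * ‖f‖
    rw [norm_smul, Real.norm_eq_abs, abs_of_pos (by positivity)]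
    have h := norm_setIntegral_le_of_norm_le_const_ae (μ := I01) (s := idx l ⁻¹' {i}) (f := f)
      (C := ‖f‖) (measure_lt_top _ _) (ae_restrict_of_ae (lp_ae_le f))
    calc (2 : ℝ) ^ l * ‖∫ s in idx l ⁻¹' {i}, f s ∂I01‖ ≤
        2 ^ l * (‖f‖ * I01.real (idx l ⁻¹' {i})) := mul_le_mul_of_nonneg_left h (by positivity)
      _ ≤ 2 ^ l * (‖f‖ * (2 ^ l)⁻¹) := by
          gcongr
          exact real_piece_le l i
      _ = 1 * ‖f‖ := by
          have : (2 : ℝ) ^ l ≠ 0 := by positivity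
          field_simp
  exact ⟨T0.mkContinuous 1 hb, fun f => rfl, hb⟩

/-- step functions -/
theorem exists_step (𝕜 : Type) [RCLike 𝕜] {X : Type*} [NormedAddCommGroup X] [NormedSpace 𝕜 X]
    (m : ℕ) :
    ∃ T : lp (fun _ : ℕ => X) ⊤ →L[𝕜] Lp X ⊤ I01, (∀ x, T x =ᵐ[I01] fun s => x (idx m s)) ∧
      ∀ x, ‖T x‖ ≤ 1 * ‖x‖ := by
  have hmem : ∀ x : lp (fun _ : ℕ => X) ⊤, MemLp (fun s => x (idx m s)) ⊤ I01 := fun x =>
    MemLp.of_bound ((StronglyMeasurable.of_discrete (f := fun j : ℕ => x j)).comp_measurable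
      (measurable_idx m)).aestronglyMeasurable ‖x‖ (Eventually.of_forall fun s =>
        norm_coord_le x _)
  let T0 : lp (fun _ : ℕ => X) ⊤ →ₗ[𝕜] Lp X ⊤ I01 :=
    { toFun := fun x => (hmem x).toLp _
      map_add' := by
        intro x y
        rw [← MemLp.toLp_add]
        rfl
      map_smul' := by
        intro c x
        rw [RingHom.id_apply, ← MemLp.toLp_const_smul]
        rfl }
  have hT0 : ∀ x, T0 x =ᵐ[I01] fun s => x (idx m s) := fun x => (hmem x).coeFn_toLp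
  have hb : ∀ x, ‖T0 x‖ ≤ 1 * ‖x‖ := by
    intro x
    rw [one_mul]
    refine lp_norm_le (norm_nonneg _) ?_
    filter_upwards [hT0 x] with s hs
    rw [hs]
    exact norm_coord_le x _
  exact ⟨T0.mkContinuous 1 hb, hT0, hb⟩

end ops

end Pool.Agent.Q197.LB
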