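import Mathlib
import Pool.Agent.Helper234.LInfS.Basic

open MeasureTheory Filter Topology

namespace Pool.Agent.Q197.LB

open Pool.Agent.Helper234.LInfS

variable {𝕜 : Type} [RCLike 𝕜]

/-- A space isomorphic to its own bounded sequences absorbs its complemented subspaces. -/
theorem absorb {X Z : Type*} [NormedAddCommGroup X] [NormedSpace 𝕜 X]
    [NormedAddCommGroup Z] [NormedSpace 𝕜 Z]
    (i : X →L[𝕜] Z) (p : Z →L[𝕜] X) (hip : ∀ x, p (i x) = x) :
    Nonempty (lp (fun _ : ℕ => Z) ⊤ ≃L[𝕜] X × lp (fun _ : ℕ => Z) ⊤) := by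
  set P : Z →L[𝕜] Z := i.comp p with hP
  set Q : Z →L[𝕜] Z := ContinuousLinearMap.id 𝕜 Z - P with hQ
  have hPP : ∀ z, P (P z) = P z := fun z => by simp [hP, hip]
  have hQQ : ∀ z, Q (Q z) = Q z := fun z => by
    simp only [hQ, _root_.sub_apply, ContinuousLinearMap.id_apply, map_sub, hPP]
    abel
  have hPQ : ∀ z, P (Q z) = 0 := fun z => by
    simp only [hQ, _root_.sub_apply, ContinuousLinearMap.id_apply, map_sub, hPP]
    abel
  have hQP : ∀ z, Q (P z) = 0 := fun z => by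
    simp only [hQ, _root_.sub_apply, ContinuousLinearMap.id_apply, hPP]
    abel
  have hsum : ∀ z, P z + Q z = z := fun z => by
    simp only [hQ, _root_.sub_apply, ContinuousLinearMap.id_apply]
    abel
  have hpP : ∀ z, p (P z) = p z := fun z => by simp [hP, hip]
  have hpQ : ∀ z, p (Q z) = 0 := fun z => by
    simp only [hQ, _root_.sub_apply, ContinuousLinearMap.id_apply, map_sub, hpP]
    abel
  have hPi : ∀ a, P (i a) = i a := fun a => by simp [hP, hip]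
  have hQi : ∀ a, Q (i a) = 0 := fun a => by
    simp only [hQ, _root_.sub_apply, ContinuousLinearMap.id_apply, hPi]
    abel
  let f : lp (fun _ : ℕ => Z) ⊤ →L[𝕜] X × lp (fun _ : ℕ => Z) ⊤ :=
    (p.comp (evalL 𝕜 Z 0)).prod
    (toLinf (fun n => P.comp (evalL 𝕜 Z (n + 1)) + Q.comp (evalL 𝕜 Z n)) (‖P‖ + ‖Q‖)
      (fun n v => by
        rw [_root_.add_apply, add_mul]
        refine (norm_add_le _ _).trans (add_le_add ?_ ?_)
        · exact (P.le_opNorm _).trans (mul_le_mul_of_nonneg_left (norm_coord_le _ _) (norm_nonneg _))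
        · exact (Q.le_opNorm _).trans
            (mul_le_mul_of_nonneg_left (norm_coord_le _ _) (norm_nonneg _))))
  let g : X × lp (fun _ : ℕ => Z) ⊤ →L[𝕜] lp (fun _ : ℕ => Z) ⊤ :=
    toLinf (fun n => (match n with
      | 0 => i.comp (ContinuousLinearMap.fst 𝕜 _ _)
      | k + 1 => (P.comp (evalL 𝕜 Z k)).comp (ContinuousLinearMap.snd 𝕜 _ _)) +
        (Q.comp (evalL 𝕜 Z n)).comp (ContinuousLinearMap.snd 𝕜 _ _)) (‖i‖ + ‖P‖ + ‖Q‖)
      (fun n v => by
        rw [_root_.add_apply, add_mul]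
        refine (norm_add_le _ _).trans (add_le_add ?_ ?_)
        · cases n with
          | zero =>
            refine (i.le_opNorm _).trans (mul_le_mul ?_ (norm_fst_le v) (norm_nonneg _) ?_)
            · linarith [norm_nonneg P]
            · positivity
          | succ k =>
            refine (P.le_opNorm _).trans
              (mul_le_mul ?_ ((norm_coord_le _ _).trans (norm_snd_le v)) (norm_nonneg _) ?_)
            · linarith [norm_nonneg i]
            · positivity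
        · exact (Q.le_opNorm _).trans
            (mul_le_mul_of_nonneg_left ((norm_coord_le _ _).trans (norm_snd_le v))
              (norm_nonneg _)))
  refine ⟨ContinuousLinearEquiv.equivOfInverse f g (fun x => ?_) (fun y => ?_)⟩
  · ext n
    cases n with
    | zero =>
      show i (p (x 0)) + Q (P (x 1) + Q (x 0)) = x 0
      rw [map_add, hQP, hQQ, zero_add]
      exact hsum (x 0)
    | succ k =>
      show P (P (x (k + 1)) + Q (x k)) + Q (P (x (k + 1 + 1)) + Q (x (k + 1))) = x (k + 1)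
      rw [map_add, map_add, hQP, hQQ, hPP, hPQ, zero_add, add_zero]
      exact hsum _
  · obtain ⟨a, y⟩ := y
    refine Prod.ext ?_ ?_
    · show p (i a + Q (y 0)) = a
      rw [map_add, hip, hpQ, add_zero]
    · ext n
      cases n with
      | zero =>
        show P (P (y 0) + Q (y 1)) + Q (i a + Q (y 0)) = y 0
        rw [map_add, map_add, hQQ, hPP, hPQ, hQi, zero_add, add_zero]
        exact hsum _
      | succ k =>
        show P (P (y (k + 1)) + Q (y (k + 1 + 1))) + Q (P (y k) + Q (y (k + 1))) = y (k + 1)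
        rw [map_add, map_add, hQQ, hPP, hPQ, hQP, zero_add, add_zero]
        exact hsum _

/-- Decomposition method, second form. -/
theorem decomp2 {X Z : Type*} [NormedAddCommGroup X] [NormedSpace 𝕜 X]
    [NormedAddCommGroup Z] [NormedSpace 𝕜 Z]
    (hZ : Nonempty (Z ≃L[𝕜] lp (fun _ : ℕ => Z) ⊤))
    (i : X →L[𝕜] Z) (p : Z →L[𝕜] X) (hip : ∀ x, p (i x) = x)
    (j : Z →L[𝕜] X) (q : X →L[𝕜] Z) (hjq : ∀ y, q (j y) = y) : Nonempty (X ≃L[𝕜] Z) := by
  obtain ⟨eZ⟩ := hZ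
  obtain ⟨e0⟩ := absorb i p hip
  obtain ⟨s⟩ := square_lp 𝕜 Z
  have e1 : Z ≃L[𝕜] X × Z :=
    (eZ.trans e0).trans ((ContinuousLinearEquiv.refl 𝕜 X).prodCongr eZ.symm)
  have e2 : Z ≃L[𝕜] Z × Z := (eZ.trans s).trans (eZ.symm.prodCongr eZ.symm)
  have e3 : X ≃L[𝕜] Z × q.ker := ContinuousLinearEquiv.equivOfRightInverse q j hjq
  have e4 : X ≃L[𝕜] Z × X := by
    refine e3.trans ?_
    refine ((e2.prodCongr (ContinuousLinearEquiv.refl 𝕜 q.ker)).trans ?_)
    refine (ContinuousLinearEquiv.prodAssoc 𝕜 Z Z q.ker).trans ?_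
    exact ((ContinuousLinearEquiv.refl 𝕜 Z).prodCongr e3.symm)
  exact ⟨(e4.trans (ContinuousLinearEquiv.prodComm 𝕜 Z X)).trans e1.symm⟩

/-- Bounded double sequences are bounded sequences. -/
theorem lp_pair (Y : Type*) [NormedAddCommGroup Y] [NormedSpace 𝕜 Y] :
    Nonempty (lp (fun _ : ℕ => Y) ⊤ ≃L[𝕜] lp (fun _ : ℕ => lp (fun _ : ℕ => Y) ⊤) ⊤) := by
  let f : lp (fun _ : ℕ => Y) ⊤ →L[𝕜] lp (fun _ : ℕ => lp (fun _ : ℕ => Y) ⊤) ⊤ :=
    toLinf (fun a => toLinf (fun n => evalL 𝕜 Y (Nat.pair a n)) 1 (fun n v => by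
      rw [one_mul]; exact norm_coord_le _ _)) 1 (fun a v => by
      rw [one_mul]
      exact lp.norm_le_of_forall_le (norm_nonneg _) fun n => norm_coord_le v (Nat.pair a n))
  let g : lp (fun _ : ℕ => lp (fun _ : ℕ => Y) ⊤) ⊤ →L[𝕜] lp (fun _ : ℕ => Y) ⊤ :=
    toLinf (fun N => (evalL 𝕜 Y (Nat.unpair N).2).comp
      (evalL 𝕜 (lp (fun _ : ℕ => Y) ⊤) (Nat.unpair N).1)) 1 (fun N v => by
      rw [one_mul]
      exact (norm_coord_le _ _).trans (norm_coord_le _ _))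
  refine ⟨ContinuousLinearEquiv.equivOfInverse f g (fun x => ?_) (fun y => ?_)⟩
  · ext N
    show x (Nat.pair (Nat.unpair N).1 (Nat.unpair N).2) = x N
    rw [Nat.pair_unpair]
  · ext a n
    show y (Nat.unpair (Nat.pair a n)).1 (Nat.unpair (Nat.pair a n)).2 = y a n
    rw [Nat.unpair_pair]

/-- an ultrafilter limit functional -/
theorem exists_ulim (𝕜 : Type) [RCLike 𝕜] :
    ∃ Λ : lp (fun _ : ℕ => 𝕜) ⊤ →L[𝕜] 𝕜, ∀ x : lp (fun _ : ℕ => 𝕜) ⊤,
      Tendsto (fun n => x n) (hyperfilter ℕ : Filter ℕ) (𝓝 (Λ x)) := by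
  have h : ∀ x : lp (fun _ : ℕ => 𝕜) ⊤, ∃ a : 𝕜,
      Tendsto (fun n => x n) (hyperfilter ℕ : Filter ℕ) (𝓝 a) := by
    intro x
    have hc : IsCompact (Metric.closedBall (0 : 𝕜) ‖x‖) := isCompact_closedBall _ _
    have hle : ((hyperfilter ℕ).map (fun n => x n) : Filter 𝕜) ≤
        𝓟 (Metric.closedBall (0 : 𝕜) ‖x‖) := by
      rw [le_principal_iff]
      exact Filter.mem_map.2 (Filter.univ_mem' fun n => by simpa using norm_coord_le x n)
    obtain ⟨a, _, ha⟩ := hc.ultrafilter_le_nhds _ hle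
    exact ⟨a, ha⟩
  choose L hL using h
  let L0 : lp (fun _ : ℕ => 𝕜) ⊤ →ₗ[𝕜] 𝕜 :=
    { toFun := L
      map_add' := fun x y => tendsto_nhds_unique (hL (x + y)) ((hL x).add (hL y))
      map_smul' := fun c x => tendsto_nhds_unique (hL (c • x)) ((hL x).const_smul c) }
  refine ⟨L0.mkContinuous 1 (fun x => ?_), hL⟩
  rw [one_mul]
  exact le_of_tendsto (hL x).norm (Eventually.of_forall fun n => norm_coord_le x n)

section r
variable {r : ENNReal} [Fact (1 ≤ r)]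

theorem r_pos (hr : r ≠ ⊤) : 0 < r.toReal :=
  ENNReal.toReal_pos (zero_lt_one.trans_le (Fact.out : 1 ≤ r)).ne' hr

theorem r_ne : r ≠ 0 := (zero_lt_one.trans_le (Fact.out : 1 ≤ r)).ne'

theorem one_le_r (hr : r ≠ ⊤) : 1 ≤ r.toReal := by
  have h := ENNReal.toReal_mono hr (Fact.out : 1 ≤ r)
  simpa using h

/-- Bounded finite sums of `r`-th powers give an operator into the sequence space. -/
theorem exists_toLr (hr : r ≠ ⊤) {V : Type*} [NormedAddCommGroup V] [NormedSpace 𝕜 V]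
    (a : ℕ → V →L[𝕜] 𝕜) (C : ℝ) (hC : 0 ≤ C)
    (h : ∀ (s : Finset ℕ) v, ∑ k ∈ s, ‖a k v‖ ^ r.toReal ≤ (C * ‖v‖) ^ r.toReal) :
    ∃ T : V →L[𝕜] lp (fun _ : ℕ => 𝕜) r, (∀ v k, T v k = a k v) ∧ ∀ v, ‖T v‖ ≤ C * ‖v‖ := by
  have hmem : ∀ v, Memℓp (fun k => a k v) r := fun v =>
    memℓp_gen' (C := (C * ‖v‖) ^ r.toReal) (h · v)
  let T0 : V →ₗ[𝕜] lp (fun _ : ℕ => 𝕜) r :=
    { toFun := fun v => ⟨fun k => a k v, hmem v⟩
      map_add' := fun v w => by ext k; exact (a k).map_add v w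
      map_smul' := fun c v => by ext k; exact (a k).map_smul c v }
  have hb : ∀ v, ‖T0 v‖ ≤ C * ‖v‖ := fun v =>
    lp.norm_le_of_forall_sum_le (r_pos hr) (by positivity) fun s => h s v
  exact ⟨T0.mkContinuous C hb, fun v k => rfl, hb⟩

theorem sum_le_norm (hr : r ≠ ⊤) (x : lp (fun _ : ℕ => 𝕜) r) (s : Finset ℕ) :
    ∑ k ∈ s, ‖x k‖ ^ r.toReal ≤ ‖x‖ ^ r.toReal := lp.sum_rpow_le_norm_rpow (r_pos hr) x s

/-- coordinate functional -/
theorem exists_coord (r : ENNReal) [Fact (1 ≤ r)] (k : ℕ) :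
    ∃ c : lp (fun _ : ℕ => 𝕜) r →L[𝕜] 𝕜, ∀ x, c x = x k := by
  let c0 : lp (fun _ : ℕ => 𝕜) r →ₗ[𝕜] 𝕜 :=
    { toFun := fun x => x k
      map_add' := fun x y => rfl
      map_smul' := fun c x => rfl }
  exact ⟨c0.mkContinuous 1 (fun x => by
    rw [one_mul]; exact lp.norm_apply_le_norm r_ne x k), fun x => rfl⟩

/-- coordinatewise ultrafilter limit -/
theorem exists_limOp (hr : r ≠ ⊤) :
    ∃ T : lp (fun _ : ℕ => lp (fun _ : ℕ => 𝕜) r) ⊤ →L[𝕜] lp (fun _ : ℕ => 𝕜) r,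
      (∀ x k, Tendsto (fun n => x n k) (hyperfilter ℕ : Filter ℕ) (𝓝 (T x k))) ∧
      ∀ x, ‖T x‖ ≤ ‖x‖ := by
  obtain ⟨Λ, hΛ⟩ := exists_ulim 𝕜
  choose c hc using fun k => exists_coord (𝕜 := 𝕜) r k
  have hcb : ∀ k x, ‖c k x‖ ≤ 1 * ‖x‖ := fun k x => by
    rw [one_mul, hc]; exact lp.norm_apply_le_norm r_ne x k
  let A : ∀ k : ℕ, lp (fun _ : ℕ => lp (fun _ : ℕ => 𝕜) r) ⊤ →L[𝕜] lp (fun _ : ℕ => 𝕜) ⊤ :=
    fun k => toLinf (fun n => (c k).comp (evalL 𝕜 _ n)) 1 (fun n v => by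
      refine (hcb k _).trans ?_
      rw [one_mul, one_mul]
      exact norm_coord_le v n)
  have hA : ∀ k x n, (A k x) n = x n k := fun k x n => hc k (x n)
  have hlim : ∀ k x, Tendsto (fun n => x n k) (hyperfilter ℕ : Filter ℕ) (𝓝 (Λ (A k x))) := by
    intro k x
    refine (hΛ (A k x)).congr fun n => hA k x n
  obtain ⟨T, hT, hTb⟩ := exists_toLr hr (fun k => Λ.comp (A k)) 1 zero_le_one (by
    intro s x
    rw [one_mul]
    have h1 : Tendsto (fun n => ∑ k ∈ s, ‖x n k‖ ^ r.toReal) (hyperfilter ℕ : Filter ℕ)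
        (𝓝 (∑ k ∈ s, ‖(Λ.comp (A k)) x‖ ^ r.toReal)) := by
      refine tendsto_finsetSum _ fun k _ => ?_
      exact ((hlim k x).norm).rpow_const (Or.inr (r_pos hr).le)
    refine le_of_tendsto h1 (Eventually.of_forall fun n => ?_)
    refine (sum_le_norm hr (x n) s).trans ?_
    exact Real.rpow_le_rpow (norm_nonneg _) (norm_coord_le x n) (r_pos hr).le)
  refine ⟨T, fun x k => ?_, fun x => by simpa using hTb x⟩
  rw [hT]
  exact hlim k x

end r

end Pool.Agent.Q197.LB
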