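import Mathlib
import Pool.Agent.Q197.LB.Seq

open MeasureTheory Filter Topology

namespace Pool.Agent.Q197.LB

open Pool.Agent.Helper234.LInfS

variable {𝕜 : Type} [RCLike 𝕜]

section dep
variable {Y : ℕ → Type*} [∀ n, NormedAddCommGroup (Y n)] [∀ n, NormedSpace 𝕜 (Y n)]
  {V : Type*} [NormedAddCommGroup V] [NormedSpace 𝕜 V]

/-- bounded families of operators, dependent version -/
theorem exists_toD (g : ∀ n, V →L[𝕜] Y n) (C : ℝ) (hC : 0 ≤ C)
    (h : ∀ n v, ‖g n v‖ ≤ C * ‖v‖) : ∃ T : V →L[𝕜] lp Y ⊤, ∀ v n, T v n = g n v := by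
  let T0 : V →ₗ[𝕜] lp Y ⊤ :=
    { toFun := fun v => ⟨fun n => g n v, memℓp_infty ⟨C * ‖v‖, by
        rintro _ ⟨n, rfl⟩; exact h n v⟩⟩
      map_add' := fun v w => by ext n; exact (g n).map_add v w
      map_smul' := fun c v => by ext n; exact (g n).map_smul c v }
  exact ⟨T0.mkContinuous C (fun v => lp.norm_le_of_forall_le (by positivity) (fun n => h n v)),
    fun v n => rfl⟩

theorem exists_evD (n : ℕ) : ∃ T : lp Y ⊤ →L[𝕜] Y n, ∀ v, T v = v n := by
  let T0 : lp Y ⊤ →ₗ[𝕜] Y n :=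
    { toFun := fun x => x n
      map_add' := fun v w => rfl
      map_smul' := fun c v => rfl }
  exact ⟨T0.mkContinuous 1 (fun v => by
        rw [one_mul]; exact lp.norm_apply_le_norm (by simp) v n), fun v => rfl⟩

theorem normD_le (v : lp Y ⊤) (n : ℕ) : ‖v n‖ ≤ ‖v‖ := lp.norm_apply_le_norm (by simp) v n

end dep

section r
variable {r : ENNReal} [Fact (1 ≤ r)]

theorem pi_norm_rpow (hr : r ≠ ⊤) {ι : Type*} [Fintype ι] (x : PiLp r (fun _ : ι => 𝕜)) :
    ‖x‖ ^ r.toReal = ∑ i, ‖x i‖ ^ r.toReal := by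
  rw [PiLp.norm_eq_sum (r_pos hr), ← Real.rpow_mul (by positivity), one_div_mul_cancel (r_pos hr).ne',
    Real.rpow_one]

theorem exists_pad (hr : r ≠ ⊤) (n : ℕ) :
    ∃ T : PiLp r (fun _ : Fin (n + 1) => 𝕜) →L[𝕜] lp (fun _ : ℕ => 𝕜) r,
      (∀ x k, T x k = if h : k < n + 1 then x ⟨k, h⟩ else 0) ∧ ∀ x, ‖T x‖ ≤ 1 * ‖x‖ := by
  let a : ℕ → PiLp r (fun _ : Fin (n + 1) => 𝕜) →L[𝕜] 𝕜 := fun k =>
    if h : k < n + 1 then PiLp.proj r (fun _ : Fin (n + 1) => 𝕜) (⟨k, h⟩ : Fin (n + 1)) else 0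
  have ha : ∀ k x, a k x = if h : k < n + 1 then x ⟨k, h⟩ else 0 := by
    intro k x
    by_cases h : k < n + 1
    · have e : a k = PiLp.proj r (fun _ : Fin (n + 1) => 𝕜) (⟨k, h⟩ : Fin (n + 1)) := dif_pos h
      rw [e, dif_pos h]
      rfl
    · have e : a k = 0 := dif_neg h
      rw [e, dif_neg h]
      rfl
  obtain ⟨T, hT, hTb⟩ := exists_toLr hr a 1 zero_le_one (by
    intro s x
    rw [one_mul, pi_norm_rpow hr, Finset.sum_fin_eq_sum_range]
    have h1 : ∀ k, ‖a k x‖ ^ r.toReal = if h : k < n + 1 then ‖x ⟨k, h⟩‖ ^ r.toReal else 0 := by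
      intro k
      rw [ha]
      by_cases h : k < n + 1
      · simp [h]
      · simp [h, Real.zero_rpow (r_pos hr).ne']
    simp only [h1]
    rw [← Finset.sum_filter_add_sum_filter_not s (fun k => k < n + 1)]
    have h2 : ∑ k ∈ s with ¬ k < n + 1, (if h : k < n + 1 then ‖x ⟨k, h⟩‖ ^ r.toReal else 0) = 0 := by
      refine Finset.sum_eq_zero fun k hk => ?_
      rw [dif_neg (Finset.mem_filter.1 hk).2]
    rw [h2, add_zero]
    refine Finset.sum_le_sum_of_subset_of_nonneg ?_ ?_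
    · intro k hk
      exact Finset.mem_range.2 (Finset.mem_filter.1 hk).2
    · intro k _ _
      split_ifs
      · positivity
      · exact le_rfl)
  exact ⟨T, fun x k => by rw [hT, ha], hTb⟩

theorem exists_trunc (hr : r ≠ ⊤) (n : ℕ) :
    ∃ T : lp (fun _ : ℕ => 𝕜) r →L[𝕜] PiLp r (fun _ : Fin (n + 1) => 𝕜),
      (∀ x i, T x i = x i) ∧ ∀ x, ‖T x‖ ≤ 1 * ‖x‖ := by
  let T0 : lp (fun _ : ℕ => 𝕜) r →ₗ[𝕜] PiLp r (fun _ : Fin (n + 1) => 𝕜) :=
    { toFun := fun x => WithLp.toLp r (fun i : Fin (n + 1) => x i)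
      map_add' := fun x y => by ext i; rfl
      map_smul' := fun c x => by ext i; rfl }
  have hb : ∀ x, ‖T0 x‖ ≤ 1 * ‖x‖ := by
    intro x
    rw [one_mul]
    refine (Real.rpow_le_rpow_iff (norm_nonneg _) (norm_nonneg _) (r_pos hr)).1 ?_
    rw [pi_norm_rpow hr]
    have h := sum_le_norm hr x (Finset.range (n + 1))
    rw [Finset.sum_range] at h
    exact h
  exact ⟨T0.mkContinuous 1 hb, fun x i => rfl, hb⟩

/-- the sum of the finite dimensional spaces and the bounded sequences of the sequence space -/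
theorem iso_BZ (𝕜 : Type) [RCLike 𝕜] (hr : r ≠ ⊤) :
    Nonempty (lp (fun n : ℕ => PiLp r (fun _ : Fin (n + 1) => 𝕜)) ⊤ ≃L[𝕜]
      lp (fun _ : ℕ => lp (fun _ : ℕ => 𝕜) r) ⊤) := by
  choose pad hpad hpadb using fun n => exists_pad (𝕜 := 𝕜) hr n
  choose tr htr htrb using fun n => exists_trunc (𝕜 := 𝕜) hr n
  choose ev hev using fun n => exists_evD (𝕜 := 𝕜) (Y := fun n : ℕ => PiLp r (fun _ : Fin (n + 1) => 𝕜)) n
  obtain ⟨lim, hlim, hlimb⟩ := exists_limOp (𝕜 := 𝕜) hr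
  have htrpad : ∀ n x, tr n (pad n x) = x := by
    intro n x
    ext i
    rw [htr, hpad, dif_pos i.2]
  -- `B → Z` and back
  let i : lp (fun n : ℕ => PiLp r (fun _ : Fin (n + 1) => 𝕜)) ⊤ →L[𝕜]
      lp (fun _ : ℕ => lp (fun _ : ℕ => 𝕜) r) ⊤ :=
    toLinf (fun n => (pad n).comp (ev n)) 1 (fun n v => by
      refine (hpadb n _).trans ?_
      rw [one_mul, one_mul]
      have e : ev n v = v n := hev n v
      exact (congrArg norm e).trans_le (normD_le v n))
  obtain ⟨p, hp⟩ := exists_toD (𝕜 := 𝕜) (Y := fun n : ℕ => PiLp r (fun _ : Fin (n + 1) => 𝕜))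
    (V := lp (fun _ : ℕ => lp (fun _ : ℕ => 𝕜) r) ⊤)
    (fun n => (tr n).comp (evalL 𝕜 _ n)) 1 zero_le_one (fun n v => by
      refine (htrb n _).trans ?_
      rw [one_mul, one_mul]
      exact norm_coord_le v n)
  have hip : ∀ x, p (i x) = x := by
    intro x
    ext n : 2
    rw [hp]
    show tr n (pad n (ev n x)) = x n
    rw [htrpad, hev]
  -- `Z → B` and back
  obtain ⟨j, hj⟩ := exists_toD (𝕜 := 𝕜) (Y := fun n : ℕ => PiLp r (fun _ : Fin (n + 1) => 𝕜))
    (V := lp (fun _ : ℕ => lp (fun _ : ℕ => 𝕜) r) ⊤)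
    (fun N => (tr N).comp (evalL 𝕜 _ (Nat.unpair N).1)) 1 zero_le_one (fun N v => by
      refine (htrb N _).trans ?_
      rw [one_mul, one_mul]
      exact norm_coord_le v _)
  let sub : ℕ → lp (fun _ : ℕ => lp (fun _ : ℕ => 𝕜) r) ⊤ →L[𝕜]
      lp (fun _ : ℕ => lp (fun _ : ℕ => 𝕜) r) ⊤ := fun a =>
    toLinf (fun n => evalL 𝕜 _ (Nat.pair a n)) 1 (fun n v => by
      rw [one_mul]; exact norm_coord_le v (Nat.pair a n))
  have hsub : ∀ a v, ‖sub a v‖ ≤ ‖v‖ := fun a v =>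
    lp.norm_le_of_forall_le (norm_nonneg _) fun n => norm_coord_le v (Nat.pair a n)
  let q : lp (fun n : ℕ => PiLp r (fun _ : Fin (n + 1) => 𝕜)) ⊤ →L[𝕜]
      lp (fun _ : ℕ => lp (fun _ : ℕ => 𝕜) r) ⊤ :=
    (toLinf (fun a => lim.comp (sub a)) 1 (fun a v => by
      rw [one_mul]
      exact (hlimb _).trans (hsub a v))).comp i
  have hjq : ∀ y, q (j y) = y := by
    intro y
    ext a k
    have h1 : Tendsto (fun n => (sub a (i (j y))) n k) (hyperfilter ℕ : Filter ℕ)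
        (𝓝 (q (j y) a k)) := hlim (sub a (i (j y))) k
    have h2 : Tendsto (fun n => (sub a (i (j y))) n k) (hyperfilter ℕ : Filter ℕ)
        (𝓝 (y a k)) := by
      have h3 : Tendsto (fun n => (sub a (i (j y))) n k) atTop (𝓝 (y a k)) := by
        refine tendsto_const_nhds.congr' ?_
        filter_upwards [eventually_ge_atTop k] with n hn
        show y a k = pad (Nat.pair a n) (ev (Nat.pair a n) (j y)) k
        have h4 : k < Nat.pair a n + 1 := by
          have := Nat.right_le_pair a n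
          omega
        rw [hpad, dif_pos h4, hev, hj]
        show y a k = (tr (Nat.pair a n) (y (Nat.unpair (Nat.pair a n)).1)) ⟨k, h4⟩
        rw [htr, Nat.unpair_pair]
      exact h3.mono_left (by
        rw [← Nat.cofinite_eq_atTop]
        exact hyperfilter_le_cofinite)
    exact tendsto_nhds_unique h1 h2
  exact decomp2 (lp_pair _) i p hip j q hjq

end r

end Pool.Agent.Q197.LB
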