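import Mathlib
import Pool.Agent.Helper234.LInf.Ops
import Pool.Agent.Helper234.LInfS.Compl1
import Pool.Agent.Q197.LB.Seq

open MeasureTheory Filter Topology

namespace Pool.Agent.Q197.LB

open Pool.Agent.Helper234.LInfS Pool.Agent.Helper234.LInf

variable {𝕜 : Type} [RCLike 𝕜]

section r
variable {r : ENNReal} [Fact (1 ≤ r)]

/-- mass of a piece -/
noncomputable def wt (κ : ℝ → ℕ) (k : ℕ) : ℝ := I01.real (κ ⁻¹' {k})

theorem wt_nonneg (κ : ℝ → ℕ) (k : ℕ) : 0 ≤ wt κ k := measureReal_nonneg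

theorem lintegral_pieces (κ : ℝ → ℕ) (hκ : Measurable κ) (φ : ℝ → ENNReal) :
    ∑' k, ∫⁻ t in κ ⁻¹' {k}, φ t ∂I01 = ∫⁻ t, φ t ∂I01 := by
  rw [← lintegral_iUnion (fun k => hκ (measurableSet_singleton k)) ?_]
  · have : (⋃ k, κ ⁻¹' {k}) = Set.univ := by
      ext t; simp
    rw [this, Measure.restrict_univ]
  · intro a b hab
    refine Set.disjoint_left.2 fun t h1 h2 => hab ?_
    simp only [Set.mem_preimage, Set.mem_singleton_iff] at h1 h2
    rw [← h1, ← h2]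

theorem eLpNorm_rpow (hr : r ≠ ⊤) (μ : Measure ℝ) (u : ℝ → 𝕜) :
    eLpNorm u r μ ^ r.toReal = ∫⁻ t, ‖u t‖ₑ ^ r.toReal ∂μ := by
  rw [eLpNorm_eq_lintegral_rpow_enorm_toReal r_ne hr, ← ENNReal.rpow_mul,
    one_div_mul_cancel (r_pos hr).ne', ENNReal.rpow_one]

theorem ofReal_norm_Lp {μ : Measure ℝ} (u : Lp 𝕜 r μ) : ENNReal.ofReal ‖u‖ = eLpNorm u r μ := by
  rw [Lp.norm_def, ENNReal.ofReal_toReal (Lp.eLpNorm_ne_top u)]

theorem norm_le_iff_lintegral (hr : r ≠ ⊤) (u : Lp 𝕜 r I01) (C : ℝ) (hC : 0 ≤ C)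
    (h : ∫⁻ t, ‖u t‖ₑ ^ r.toReal ∂I01 ≤ ENNReal.ofReal C ^ r.toReal) : ‖u‖ ≤ C := by
  rw [← eLpNorm_rpow hr, ENNReal.rpow_le_rpow_iff (r_pos hr)] at h
  rw [Lp.norm_def]
  exact ENNReal.toReal_le_of_le_ofReal hC h

/-- the sum of the local norms -/
theorem sum_local (hr : r ≠ ⊤) (κ : ℝ → ℕ) (hκ : Measurable κ) (u : Lp 𝕜 r I01)
    (s : Finset ℕ) :
    ∑ k ∈ s, (eLpNorm u r (I01.restrict (κ ⁻¹' {k}))).toReal ^ r.toReal ≤ ‖u‖ ^ r.toReal := by
  have hp := r_pos hr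
  have hfin : ∀ k, eLpNorm u r (I01.restrict (κ ⁻¹' {k})) ≠ ⊤ := fun k =>
    ((Lp.memLp u).restrict _).eLpNorm_ne_top
  have h1 : ∑ k ∈ s, eLpNorm u r (I01.restrict (κ ⁻¹' {k})) ^ r.toReal ≤
      eLpNorm u r I01 ^ r.toReal := by
    simp only [eLpNorm_rpow hr]
    rw [← lintegral_pieces κ hκ]
    exact ENNReal.sum_le_tsum s
  have h2 := ENNReal.toReal_mono (by
    exact ENNReal.rpow_ne_top_of_nonneg hp.le (Lp.eLpNorm_ne_top u)) h1
  rw [ENNReal.toReal_sum (fun k _ => ENNReal.rpow_ne_top_of_nonneg hp.le (hfin k))] at h2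
  simp only [← ENNReal.toReal_rpow] at h2
  exact h2

theorem norm_setIntegral_le (hr : r ≠ ⊤) (E : Set ℝ) (u : Lp 𝕜 r I01) :
    ‖∫ t in E, u t ∂I01‖ ≤
      (eLpNorm u r (I01.restrict E)).toReal * I01.real E ^ (1 - 1 / r.toReal) := by
  have h1 : ENNReal.ofReal ‖∫ t in E, u t ∂I01‖ ≤ eLpNorm u 1 (I01.restrict E) := by
    rw [eLpNorm_one_eq_lintegral_enorm, ofReal_norm]
    exact enorm_integral_le_lintegral_enorm _
  have h2 := eLpNorm_le_eLpNorm_mul_rpow_measure_univ (μ := I01.restrict E) (p := 1) (q := r)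
    (f := u) Fact.out ((Lp.memLp u).restrict _).aestronglyMeasurable
  have h3 := h1.trans h2
  rw [Measure.restrict_apply_univ, ENNReal.toReal_one, div_one] at h3
  have hfin : eLpNorm u r (I01.restrict E) ≠ ⊤ := ((Lp.memLp u).restrict _).eLpNorm_ne_top
  have he : 0 ≤ 1 - 1 / r.toReal := by
    rw [sub_nonneg, div_le_one (r_pos hr)]; exact one_le_r hr
  have hfin2 : I01 E ^ (1 - 1 / r.toReal) ≠ ⊤ :=
    ENNReal.rpow_ne_top_of_nonneg he (measure_ne_top _ _)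
  have h4 := ENNReal.toReal_mono (ENNReal.mul_ne_top hfin hfin2) h3
  rw [ENNReal.toReal_ofReal (norm_nonneg _), ENNReal.toReal_mul, ← ENNReal.toReal_rpow] at h4
  exact h4

theorem integrable_Lr (u : Lp 𝕜 r I01) : Integrable (fun t => u t) I01 :=
  (Lp.memLp u).integrable Fact.out

/-- the averaging operator into the sequence space -/
theorem exists_pi (𝕜 : Type) [RCLike 𝕜] (hr : r ≠ ⊤) (κ : ℝ → ℕ) (hκ : Measurable κ) :
    ∃ T : Lp 𝕜 r I01 →L[𝕜] lp (fun _ : ℕ => 𝕜) r,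
      (∀ u k, T u k = ((wt κ k ^ (1 / r.toReal - 1) : ℝ) : 𝕜) * ∫ t in κ ⁻¹' {k}, u t ∂I01) ∧
      ∀ u, ‖T u‖ ≤ 1 * ‖u‖ := by
  have hp := r_pos hr
  have hb : ∀ k (u : Lp 𝕜 r I01),
      ‖((wt κ k ^ (1 / r.toReal - 1) : ℝ) : 𝕜) * ∫ t in κ ⁻¹' {k}, u t ∂I01‖ ≤
        (eLpNorm u r (I01.restrict (κ ⁻¹' {k}))).toReal := by
    intro k u
    rw [norm_mul, RCLike.norm_ofReal, abs_of_nonneg (Real.rpow_nonneg (wt_nonneg _ _) _)]
    have h1 := norm_setIntegral_le hr (κ ⁻¹' {k}) u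
    rcases eq_or_lt_of_le (wt_nonneg κ k) with h0 | h0
    · have h2 : I01.restrict (κ ⁻¹' {k}) = 0 := by
        rw [Measure.restrict_eq_zero]
        have := h0.symm
        unfold wt at this
        rwa [measureReal_eq_zero_iff] at this
      rw [h2]
      simp
    · refine (mul_le_mul_of_nonneg_left h1 (Real.rpow_nonneg h0.le _)).trans ?_
      have h3 : wt κ k ^ (1 / r.toReal - 1) *
          ((eLpNorm u r (I01.restrict (κ ⁻¹' {k}))).toReal *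
            I01.real (κ ⁻¹' {k}) ^ (1 - 1 / r.toReal)) =
          (eLpNorm u r (I01.restrict (κ ⁻¹' {k}))).toReal := by
        have h4 : wt κ k ^ (1 / r.toReal - 1) * I01.real (κ ⁻¹' {k}) ^ (1 - 1 / r.toReal) = 1 := by
          change wt κ k ^ (1 / r.toReal - 1) * wt κ k ^ (1 - 1 / r.toReal) = 1
          rw [← Real.rpow_add h0]
          simp
        calc _ = (wt κ k ^ (1 / r.toReal - 1) * I01.real (κ ⁻¹' {k}) ^ (1 - 1 / r.toReal)) *
            (eLpNorm u r (I01.restrict (κ ⁻¹' {k}))).toReal := by ring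
          _ = _ := by rw [h4, one_mul]
      exact h3.le
  let a : ℕ → Lp 𝕜 r I01 →L[𝕜] 𝕜 := fun k =>
    LinearMap.mkContinuous
      { toFun := fun u => ((wt κ k ^ (1 / r.toReal - 1) : ℝ) : 𝕜) * ∫ t in κ ⁻¹' {k}, u t ∂I01
        map_add' := by
          intro u v
          rw [← mul_add, ← integral_add (integrable_Lr u).integrableOn
            (integrable_Lr v).integrableOn]
          congr 1
          exact integral_congr_ae (ae_restrict_of_ae (Lp.coeFn_add u v))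
        map_smul' := by
          intro c u
          rw [RingHom.id_apply, smul_eq_mul, mul_left_comm, ← smul_eq_mul (a := c),
            ← integral_smul]
          congr 1
          exact integral_congr_ae (ae_restrict_of_ae (Lp.coeFn_smul c u)) } 1 (by
      intro u
      rw [one_mul]
      refine (hb k u).trans ?_
      rw [Lp.norm_def]
      exact ENNReal.toReal_mono (Lp.eLpNorm_ne_top u)
        (eLpNorm_mono_measure _ Measure.restrict_le_self))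
  obtain ⟨T, hT, hTb⟩ := exists_toLr hr a 1 zero_le_one (by
    intro s u
    rw [one_mul]
    refine le_trans (Finset.sum_le_sum fun k _ => ?_) (sum_local hr κ hκ u s)
    exact Real.rpow_le_rpow (norm_nonneg _) (hb k u) hp.le)
  exact ⟨T, fun u k => hT u k, hTb⟩

theorem wt_mul (hr : r ≠ ⊤) (κ : ℝ → ℕ) (k : ℕ) (y : 𝕜) :
    I01 (κ ⁻¹' {k}) * ‖((wt κ k ^ (-(1 / r.toReal)) : ℝ) : 𝕜) * y‖ₑ ^ r.toReal ≤
      ‖y‖ₑ ^ r.toReal := by
  have hp := r_pos hr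
  rcases eq_or_lt_of_le (wt_nonneg κ k) with h0 | h0
  · have : I01 (κ ⁻¹' {k}) = 0 := by
      have := h0.symm
      unfold wt at this
      rwa [measureReal_eq_zero_iff] at this
    rw [this, zero_mul]
    exact bot_le
  · rw [enorm_mul, ENNReal.mul_rpow_of_nonneg _ _ hp.le, ← mul_assoc]
    have h1 : I01 (κ ⁻¹' {k}) = ENNReal.ofReal (wt κ k) := by
      unfold wt; rw [ofReal_measureReal]
    have h2 : ‖((wt κ k ^ (-(1 / r.toReal)) : ℝ) : 𝕜)‖ₑ =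
        ENNReal.ofReal (wt κ k ^ (-(1 / r.toReal))) := by
      rw [← ofReal_norm, RCLike.norm_ofReal, abs_of_nonneg (Real.rpow_nonneg h0.le _)]
    have h3 : I01 (κ ⁻¹' {k}) * ‖((wt κ k ^ (-(1 / r.toReal)) : ℝ) : 𝕜)‖ₑ ^ r.toReal = 1 := by
      rw [h1, h2, ENNReal.ofReal_rpow_of_nonneg (Real.rpow_nonneg h0.le _) hp.le,
        ← ENNReal.ofReal_mul h0.le, ← Real.rpow_mul h0.le]
      have : -(1 / r.toReal) * r.toReal = -1 := by field_simp
      rw [this, Real.rpow_neg_one, mul_inv_cancel₀ h0.ne', ENNReal.ofReal_one]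
    rw [h3, one_mul]

theorem lintegral_iota (hr : r ≠ ⊤) (κ : ℝ → ℕ) (hκ : Measurable κ)
    (x : lp (fun _ : ℕ => 𝕜) r) :
    ∫⁻ t, ‖((wt κ (κ t) ^ (-(1 / r.toReal)) : ℝ) : 𝕜) * x (κ t)‖ₑ ^ r.toReal ∂I01 ≤
      ENNReal.ofReal ‖x‖ ^ r.toReal := by
  have hp := r_pos hr
  rw [← lintegral_pieces κ hκ]
  have h1 : ∀ k, ∫⁻ t in κ ⁻¹' {k},
      ‖((wt κ (κ t) ^ (-(1 / r.toReal)) : ℝ) : 𝕜) * x (κ t)‖ₑ ^ r.toReal ∂I01 ≤
      ENNReal.ofReal (‖x k‖ ^ r.toReal) := by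
    intro k
    rw [setLIntegral_congr_fun (g := fun _ =>
      ‖((wt κ k ^ (-(1 / r.toReal)) : ℝ) : 𝕜) * x k‖ₑ ^ r.toReal)
      (hκ (measurableSet_singleton k)) (fun t ht => by
        have : κ t = k := ht
        simp only [this])]
    rw [setLIntegral_const, mul_comm]
    refine (wt_mul hr κ k (x k)).trans ?_
    rw [← ofReal_norm, ENNReal.ofReal_rpow_of_nonneg (norm_nonneg _) hp.le]
  refine (ENNReal.tsum_le_tsum h1).trans ?_
  rw [ENNReal.ofReal_rpow_of_nonneg (norm_nonneg _) hp.le, lp.norm_rpow_eq_tsum hp x,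
    ENNReal.ofReal_tsum_of_nonneg (fun n => by positivity) (lp.memℓp x |>.summable hp)]

/-- the step function operator from the sequence space -/
theorem exists_iota (𝕜 : Type) [RCLike 𝕜] (hr : r ≠ ⊤) (κ : ℝ → ℕ) (hκ : Measurable κ) :
    ∃ T : lp (fun _ : ℕ => 𝕜) r →L[𝕜] Lp 𝕜 r I01,
      (∀ x, T x =ᵐ[I01] fun t => ((wt κ (κ t) ^ (-(1 / r.toReal)) : ℝ) : 𝕜) * x (κ t)) ∧
      ∀ x, ‖T x‖ ≤ 1 * ‖x‖ := by
  have hp := r_pos hr
  have hmeas : ∀ x : lp (fun _ : ℕ => 𝕜) r, AEStronglyMeasurable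
      (fun t => ((wt κ (κ t) ^ (-(1 / r.toReal)) : ℝ) : 𝕜) * x (κ t)) I01 := fun x =>
    ((StronglyMeasurable.of_discrete (f := fun k : ℕ =>
      ((wt κ k ^ (-(1 / r.toReal)) : ℝ) : 𝕜) * x k)).comp_measurable hκ).aestronglyMeasurable
  have hmem : ∀ x : lp (fun _ : ℕ => 𝕜) r, MemLp
      (fun t => ((wt κ (κ t) ^ (-(1 / r.toReal)) : ℝ) : 𝕜) * x (κ t)) r I01 := by
    intro x
    refine ⟨hmeas x, ?_⟩
    have h := lintegral_iota hr κ hκ x
    rw [← eLpNorm_rpow hr, ENNReal.rpow_le_rpow_iff hp] at h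
    exact h.trans_lt ENNReal.ofReal_lt_top
  let T0 : lp (fun _ : ℕ => 𝕜) r →ₗ[𝕜] Lp 𝕜 r I01 :=
    { toFun := fun x => (hmem x).toLp _
      map_add' := by
        intro x y
        rw [← MemLp.toLp_add]
        refine MemLp.toLp_congr _ _ (Eventually.of_forall fun t => ?_)
        show _ * (x (κ t) + y (κ t)) = _ * x (κ t) + _ * y (κ t)
        rw [mul_add]
      map_smul' := by
        intro c x
        rw [RingHom.id_apply, ← MemLp.toLp_const_smul]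
        refine MemLp.toLp_congr _ _ (Eventually.of_forall fun t => ?_)
        show _ * (c * x (κ t)) = c * (_ * x (κ t))
        rw [mul_left_comm] }
  have hT0 : ∀ x, T0 x =ᵐ[I01] fun t =>
      ((wt κ (κ t) ^ (-(1 / r.toReal)) : ℝ) : 𝕜) * x (κ t) := fun x => (hmem x).coeFn_toLp
  have hb : ∀ x, ‖T0 x‖ ≤ 1 * ‖x‖ := by
    intro x
    rw [one_mul]
    refine norm_le_iff_lintegral hr _ _ (norm_nonneg _) ?_
    refine le_trans (le_of_eq ?_) (lintegral_iota hr κ hκ x)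
    refine lintegral_congr_ae ?_
    filter_upwards [hT0 x] with t ht
    rw [ht]
  exact ⟨T0.mkContinuous 1 hb, hT0, hb⟩

theorem pi_iota (hr : r ≠ ⊤) (κ : ℝ → ℕ) (hκ : Measurable κ)
    (π : Lp 𝕜 r I01 →L[𝕜] lp (fun _ : ℕ => 𝕜) r)
    (hπ : ∀ u k, π u k = ((wt κ k ^ (1 / r.toReal - 1) : ℝ) : 𝕜) * ∫ t in κ ⁻¹' {k}, u t ∂I01)
    (ι : lp (fun _ : ℕ => 𝕜) r →L[𝕜] Lp 𝕜 r I01)
    (hι : ∀ x, ι x =ᵐ[I01] fun t => ((wt κ (κ t) ^ (-(1 / r.toReal)) : ℝ) : 𝕜) * x (κ t))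
    (x : lp (fun _ : ℕ => 𝕜) r) (k : ℕ) (hk : 0 < wt κ k) : π (ι x) k = x k := by
  rw [hπ]
  have h1 : ∫ t in κ ⁻¹' {k}, ι x t ∂I01 =
      ∫ _t in κ ⁻¹' {k}, ((wt κ k ^ (-(1 / r.toReal)) : ℝ) : 𝕜) * x k ∂I01 := by
    refine setIntegral_congr_ae (hκ (measurableSet_singleton k)) ?_
    filter_upwards [hι x] with t ht htk
    have : κ t = k := htk
    rw [ht, this]
  rw [h1, setIntegral_const]
  change ((wt κ k ^ (1 / r.toReal - 1) : ℝ) : 𝕜) *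
    (wt κ k • (((wt κ k ^ (-(1 / r.toReal)) : ℝ) : 𝕜) * x k)) = x k
  rw [RCLike.real_smul_eq_coe_mul, ← mul_assoc, ← mul_assoc, ← RCLike.ofReal_mul,
    ← RCLike.ofReal_mul]
  have h2 : wt κ k ^ (1 / r.toReal - 1) * wt κ k * wt κ k ^ (-(1 / r.toReal)) = 1 := by
    have h3 : wt κ k = wt κ k ^ (1 : ℝ) := (Real.rpow_one _).symm
    calc _ = wt κ k ^ (1 / r.toReal - 1) * wt κ k ^ (1 : ℝ) * wt κ k ^ (-(1 / r.toReal)) := by
          rw [Real.rpow_one]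
      _ = 1 := by
          rw [← Real.rpow_add hk, ← Real.rpow_add hk]
          have : 1 / r.toReal - 1 + 1 + -(1 / r.toReal) = 0 := by ring
          rw [this, Real.rpow_zero]
  rw [h2, RCLike.ofReal_one, one_mul]

/-- the bounded sequences of the sequence space are complemented in the Bochner space -/
theorem Z_compl_L (𝕜 : Type) [RCLike 𝕜] (hr : r ≠ ⊤) :
    ∃ (i : lp (fun _ : ℕ => lp (fun _ : ℕ => 𝕜) r) ⊤ →L[𝕜] Lp (Lp 𝕜 r I01) ⊤ I01)
      (p : Lp (Lp 𝕜 r I01) ⊤ I01 →L[𝕜] lp (fun _ : ℕ => lp (fun _ : ℕ => 𝕜) r) ⊤),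
      ∀ x, p (i x) = x := by
  obtain ⟨i1, p1, h1⟩ := compl1 𝕜 (Lp 𝕜 r I01)
  obtain ⟨π, hπ, hπb⟩ := exists_pi 𝕜 hr compl1_n compl1_n_meas
  obtain ⟨ι, hι, hιb⟩ := exists_iota 𝕜 hr compl1_n compl1_n_meas
  have hwt : ∀ k, 0 < wt compl1_n k := by
    intro k
    refine (compl1_B_pos k).trans_le ?_
    refine measureReal_mono ?_
    intro t ht
    exact compl1_n_eq ht
  let a : lp (fun _ : ℕ => lp (fun _ : ℕ => 𝕜) r) ⊤ →L[𝕜] lp (fun _ : ℕ => Lp 𝕜 r I01) ⊤ :=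
    toLinf (fun n => ι.comp (evalL 𝕜 _ n)) 1 (fun n v => by
      refine (hιb _).trans ?_
      rw [one_mul, one_mul]
      exact norm_coord_le v n)
  let b : lp (fun _ : ℕ => Lp 𝕜 r I01) ⊤ →L[𝕜] lp (fun _ : ℕ => lp (fun _ : ℕ => 𝕜) r) ⊤ :=
    toLinf (fun n => π.comp (evalL 𝕜 _ n)) 1 (fun n v => by
      refine (hπb _).trans ?_
      rw [one_mul, one_mul]
      exact norm_coord_le v n)
  refine ⟨i1.comp a, b.comp p1, fun x => ?_⟩
  show b (p1 (i1 (a x))) = x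
  rw [h1]
  ext n k
  show π (ι (x n)) k = x n k
  exact pi_iota hr compl1_n compl1_n_meas π hπ ι hι (x n) k (hwt k)

end r

end Pool.Agent.Q197.LB
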