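import Mathlib
import Pool.Agent.Q197.LB.Mart
import Pool.Agent.Q197.LB.Emb

open MeasureTheory Filter Topology

namespace Pool.Agent.Q197.LB

open Pool.Agent.Helper234.LInfS Pool.Agent.Helper234.LInf

variable {𝕜 : Type} [RCLike 𝕜]

section r
variable {r : ENNReal} [Fact (1 ≤ r)]

/-- dominated convergence in the `r`-norm -/
theorem dct (hr : r ≠ ⊤) {f : ℕ → ℝ → 𝕜} {g : ℝ → 𝕜} {G : ℝ → ℝ}
    (hf : ∀ n, AEStronglyMeasurable (f n) I01) (hG : MemLp G r I01)
    (hb : ∀ n, ∀ᵐ t ∂I01, ‖f n t‖ ≤ G t)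
    (hlim : ∀ᵐ t ∂I01, Tendsto (fun n => f n t) atTop (𝓝 (g t))) :
    Tendsto (fun n => eLpNorm (f n - g) r I01) atTop (𝓝 0) := by
  have hp := r_pos hr
  have hg : AEStronglyMeasurable g I01 := aestronglyMeasurable_of_tendsto_ae _ hf hlim
  have hb' : ∀ᵐ t ∂I01, ∀ n, ‖f n t‖ ≤ G t := ae_all_iff.2 hb
  have hG2 : MemLp ((2 : ℝ) • G) r I01 := hG.const_smul 2
  have key : Tendsto (fun n => ∫⁻ t, ‖(f n - g) t‖ₑ ^ r.toReal ∂I01) atTop
      (𝓝 (∫⁻ _t, 0 ∂I01)) := by
    refine tendsto_lintegral_of_dominated_convergence' (fun t => ‖((2 : ℝ) • G) t‖ₑ ^ r.toReal)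
      (fun n => ((hf n).sub hg).enorm.pow_const _) (fun n => ?_) ?_ ?_
    · filter_upwards [hb', hlim] with t h1 h2
      refine ENNReal.rpow_le_rpow ?_ hp.le
      rw [← ofReal_norm, ← ofReal_norm]
      refine ENNReal.ofReal_le_ofReal ?_
      have h3 : ‖g t‖ ≤ G t := le_of_tendsto h2.norm (Eventually.of_forall h1)
      rw [Pi.smul_apply, norm_smul, Real.norm_eq_abs, Real.norm_eq_abs,
        abs_of_nonneg ((norm_nonneg _).trans h3), Pi.sub_apply]
      refine (norm_sub_le _ _).trans ?_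
      have := h1 n
      norm_num
      linarith
    · have h := hG2.eLpNorm_ne_top
      have h2 := lintegral_rpow_enorm_lt_top_of_eLpNorm_lt_top (f := (2 : ℝ) • G) r_ne hr
        hG2.eLpNorm_lt_top
      exact h2.ne
    · filter_upwards [hlim] with t ht
      have h1 : Tendsto (fun n => ‖(f n - g) t‖ₑ) atTop (𝓝 0) := by
        have h2 : Tendsto (fun n => f n t - g t) atTop (𝓝 0) := by
          have := ht.sub_const (g t)
          rwa [sub_self] at this
        have h3 := h2.enorm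
        rw [enorm_zero] at h3
        exact h3
      have h4 := h1.ennrpow_const r.toReal
      rwa [ENNReal.zero_rpow_of_pos hp] at h4
  rw [lintegral_zero] at key
  have h5 := key.ennrpow_const (1 / r.toReal)
  rw [ENNReal.zero_rpow_of_pos (by positivity)] at h5
  refine h5.congr fun n => ?_
  rw [eLpNorm_eq_lintegral_rpow_enorm_toReal r_ne hr]

/-- radial truncation -/
noncomputable def tau (m : ℕ) (x : 𝕜) : 𝕜 := (((m + 1 : ℝ) / max (m + 1 : ℝ) ‖x‖ : ℝ) : 𝕜) * x

theorem tau_cont (m : ℕ) : Continuous (tau m : 𝕜 → 𝕜) := by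
  unfold tau
  refine Continuous.mul ?_ continuous_id
  refine RCLike.continuous_ofReal.comp ?_
  refine continuous_const.div (continuous_const.max continuous_norm) fun x => ?_
  have : (0 : ℝ) < (m : ℝ) + 1 := by positivity
  exact (lt_max_of_lt_left this).ne'

theorem tau_norm (m : ℕ) (x : 𝕜) : ‖tau m x‖ = (m + 1 : ℝ) / max (m + 1 : ℝ) ‖x‖ * ‖x‖ := by
  unfold tau
  rw [norm_mul, RCLike.norm_ofReal, abs_of_nonneg]
  positivity

theorem tau_le (m : ℕ) (x : 𝕜) : ‖tau m x‖ ≤ ‖x‖ := by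
  rw [tau_norm]
  have : (0 : ℝ) < (m : ℝ) + 1 := by positivity
  refine mul_le_of_le_one_left (norm_nonneg _) ?_
  rw [div_le_one (lt_max_of_lt_left this)]
  exact le_max_left _ _

theorem tau_le' (m : ℕ) (x : 𝕜) : ‖tau m x‖ ≤ m + 1 := by
  rw [tau_norm]
  have h : (0 : ℝ) < (m : ℝ) + 1 := by positivity
  rw [div_mul_eq_mul_div, div_le_iff₀ (lt_max_of_lt_left h)]
  exact mul_le_mul_of_nonneg_left (le_max_right _ _) h.le

theorem tau_tendsto (x : 𝕜) : Tendsto (fun m : ℕ => tau m x) atTop (𝓝 x) := by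
  refine tendsto_const_nhds.congr' ?_
  obtain ⟨N, hN⟩ := exists_nat_ge ‖x‖
  filter_upwards [eventually_ge_atTop N] with m hm
  have h1 : ‖x‖ ≤ (m : ℝ) + 1 := by
    have : (N : ℝ) ≤ m := by exact_mod_cast hm
    linarith
  have h2 : (0 : ℝ) < (m : ℝ) + 1 := by positivity
  unfold tau
  rw [max_eq_left h1, div_self h2.ne', RCLike.ofReal_one, one_mul]

/-- measurability of the rows of a limit of step functions -/
theorem rows (hr : r ≠ ⊤) (H : ℕ → ℕ → Lp 𝕜 r I01) (C : ℝ) (hC : 0 ≤ C)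
    (hH : ∀ l i, ‖H l i‖ ≤ C) (g : ℝ × ℝ → 𝕜)
    (hg : ∀ᵐ s ∂I01, ∀ᵐ t ∂I01, Tendsto (fun l => H l (idx l s) t) atTop (𝓝 (g (s, t)))) :
    ∃ v : Lp (Lp 𝕜 r I01) ⊤ I01, ‖v‖ ≤ C ∧
      ∀ᵐ s ∂I01, ∀ᵐ t ∂I01, Tendsto (fun l => H l (idx l s) t) atTop (𝓝 (v s t)) := by
  classical
  -- the rows belong to the space
  have hrow : ∀ᵐ s ∂I01, MemLp (fun t => g (s, t)) r I01 ∧
      eLpNorm (fun t => g (s, t)) r I01 ≤ ENNReal.ofReal C := by
    filter_upwards [hg] with s hs
    have h1 : eLpNorm (fun t => g (s, t)) r I01 ≤ ENNReal.ofReal C := by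
      refine (Lp.eLpNorm_lim_le_liminf_eLpNorm
        (fun l => Lp.aestronglyMeasurable (H l (idx l s))) _ hs).trans ?_
      refine (liminf_le_liminf (v := fun _ => ENNReal.ofReal C)
        (Eventually.of_forall fun l => ?_)).trans ?_
      · rw [← ofReal_norm_Lp]
        exact ENNReal.ofReal_le_ofReal (hH l _)
      · simp
    exact ⟨⟨aestronglyMeasurable_of_tendsto_ae _
      (fun l => Lp.aestronglyMeasurable (H l (idx l s))) hs, h1.trans_lt ENNReal.ofReal_lt_top⟩, h1⟩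
  have htau : ∀ (m : ℕ) (u : ℝ → 𝕜), MemLp u r I01 → MemLp (fun t => tau m (u t)) r I01 :=
    fun m u hu => hu.of_le ((tau_cont m).comp_aestronglyMeasurable hu.1)
      (Eventually.of_forall fun t => tau_le m _)
  let F : ℝ → Lp 𝕜 r I01 := fun s =>
    if h : MemLp (fun t => g (s, t)) r I01 then h.toLp _ else 0
  let Fm : ℕ → ℝ → Lp 𝕜 r I01 := fun m s =>
    if h : MemLp (fun t => g (s, t)) r I01 then (htau m _ h).toLp _ else 0
  let T : ℕ → ℕ → ℕ → Lp 𝕜 r I01 := fun l m i => (htau m _ (Lp.memLp (H l i))).toLp _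
  have hT : ∀ l m, StronglyMeasurable fun s => T l m (idx l s) := fun l m =>
    (StronglyMeasurable.of_discrete (f := T l m)).comp_measurable (measurable_idx l)
  have hFm : ∀ m, AEStronglyMeasurable (Fm m) I01 := by
    intro m
    refine aestronglyMeasurable_of_tendsto_ae atTop (f := fun l s => T l m (idx l s))
      (fun l => (hT l m).aestronglyMeasurable) ?_
    filter_upwards [hrow, hg] with s h1 h2
    have e : Fm m s = (htau m _ h1.1).toLp _ := dif_pos h1.1
    rw [e]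
    rw [Lp.tendsto_Lp_iff_tendsto_eLpNorm'']
    refine dct hr (G := fun _ => (m : ℝ) + 1) (fun l => (htau m _ (Lp.memLp (H l (idx l s)))).1)
      (memLp_const _) (fun l => Eventually.of_forall fun t => tau_le' m _) ?_
    filter_upwards [h2] with t ht
    exact ((tau_cont m).tendsto _).comp ht
  have hF : AEStronglyMeasurable F I01 := by
    refine aestronglyMeasurable_of_tendsto_ae atTop (f := Fm) hFm ?_
    filter_upwards [hrow] with s h1
    have e : F s = h1.1.toLp _ := dif_pos h1.1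
    have e2 : ∀ m, Fm m s = (htau m _ h1.1).toLp _ := fun m => dif_pos h1.1
    rw [e]
    simp only [e2]
    rw [Lp.tendsto_Lp_iff_tendsto_eLpNorm'']
    refine dct hr (G := fun t => ‖g (s, t)‖) (fun m => (htau m _ h1.1).1)
      h1.1.norm (fun m => Eventually.of_forall fun t => tau_le m _) ?_
    exact Eventually.of_forall fun t => tau_tendsto _
  have hFb : ∀ᵐ s ∂I01, ‖F s‖ ≤ C := by
    filter_upwards [hrow] with s h1
    have e : F s = h1.1.toLp _ := dif_pos h1.1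
    rw [e, Lp.norm_toLp]
    exact ENNReal.toReal_le_of_le_ofReal hC h1.2
  have hmem : MemLp F ⊤ I01 := MemLp.of_bound hF C hFb
  refine ⟨hmem.toLp F, ?_, ?_⟩
  · refine lp_norm_le hC ?_
    filter_upwards [hmem.coeFn_toLp, hFb] with s h1 h2
    rwa [h1]
  · filter_upwards [hmem.coeFn_toLp, hrow, hg] with s h1 h2 h3
    rw [h1]
    have e : F s = h2.1.toLp _ := dif_pos h2.1
    rw [e]
    filter_upwards [h2.1.coeFn_toLp, h3] with t h4 h5
    rw [h4]
    exact h5

/-- limits of consistent step functions -/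
theorem exists_lim (hr : r ≠ ⊤) (H : ℕ → ℕ → Lp 𝕜 r I01) (C : ℝ) (hC : 0 ≤ C)
    (hH : ∀ l i, ‖H l i‖ ≤ C) (c : ℕ → ℕ → ℕ → 𝕜)
    (hHc : ∀ l i, H l i =ᵐ[I01] fun t => c l i (idx l t))
    (hc : ∀ l i k, i < 2 ^ l → k < 2 ^ l → c l i k = (c (l + 1) (2 * i) (2 * k) +
      c (l + 1) (2 * i) (2 * k + 1) + c (l + 1) (2 * i + 1) (2 * k) +
      c (l + 1) (2 * i + 1) (2 * k + 1)) / 4) :
    ∃ v : Lp (Lp 𝕜 r I01) ⊤ I01, ‖v‖ ≤ C ∧
      ∀ᵐ s ∂I01, ∀ᵐ t ∂I01, Tendsto (fun l => H l (idx l s) t) atTop (𝓝 (v s t)) := by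
  have hbound : ∀ l, ∫⁻ p, ‖c l (idx l p.1) (idx l p.2)‖ₑ ∂(I01.prod I01) ≤ ENNReal.ofReal C := by
    intro l
    have hm : Measurable fun p : ℝ × ℝ => ‖c l (idx l p.1) (idx l p.2)‖ₑ :=
      (Measurable.of_discrete (f := fun y : ℕ × ℕ => ‖c l y.1 y.2‖ₑ)).comp (measurable_idx2 l)
    rw [lintegral_prod _ hm.aemeasurable]
    have h1 : ∀ s, ∫⁻ t, ‖c l (idx l s) (idx l t)‖ₑ ∂I01 ≤ ENNReal.ofReal C := by
      intro s
      have h2 : ∫⁻ t, ‖c l (idx l s) (idx l t)‖ₑ ∂I01 = eLpNorm (H l (idx l s)) 1 I01 := by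
        rw [eLpNorm_one_eq_lintegral_enorm]
        refine lintegral_congr_ae ?_
        filter_upwards [hHc l (idx l s)] with t ht
        rw [ht]
      rw [h2]
      refine (eLpNorm_le_eLpNorm_of_exponent_le (Fact.out : 1 ≤ r)
        (Lp.aestronglyMeasurable (H l (idx l s)))).trans ?_
      rw [← ofReal_norm_Lp]
      exact ENNReal.ofReal_le_ofReal (hH l _)
    refine (lintegral_mono h1).trans ?_
    rw [lintegral_const, measure_univ, mul_one]
  obtain ⟨g1, _, hg1⟩ := mart (fun l i k => RCLike.re (c l i k)) (by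
    intro l i k hi hk
    rw [hc l i k hi hk]
    have : (4 : 𝕜) = ((4 : ℝ) : 𝕜) := by norm_cast
    rw [this, RCLike.div_re_ofReal]
    simp only [map_add]) C.toNNReal (by
    intro l
    rw [eLpNorm_one_eq_lintegral_enorm]
    refine le_trans (lintegral_mono fun p => ?_) (hbound l)
    rw [← ofReal_norm, ← ofReal_norm]
    exact ENNReal.ofReal_le_ofReal (RCLike.norm_re_le_norm _))
  obtain ⟨g2, _, hg2⟩ := mart (fun l i k => RCLike.im (c l i k)) (by
    intro l i k hi hk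
    rw [hc l i k hi hk]
    have : (4 : 𝕜) = ((4 : ℝ) : 𝕜) := by norm_cast
    rw [this, div_eq_inv_mul, ← RCLike.ofReal_inv, RCLike.im_ofReal_mul]
    simp only [map_add]
    ring) C.toNNReal (by
    intro l
    rw [eLpNorm_one_eq_lintegral_enorm]
    refine le_trans (lintegral_mono fun p => ?_) (hbound l)
    rw [← ofReal_norm, ← ofReal_norm]
    exact ENNReal.ofReal_le_ofReal (RCLike.norm_im_le_norm _))
  refine rows hr H C hC hH (fun p => (g1 p : 𝕜) + (g2 p : 𝕜) * RCLike.I) ?_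
  have h3 := Measure.ae_ae_of_ae_prod hg1
  have h4 := Measure.ae_ae_of_ae_prod hg2
  have h5 : ∀ᵐ t ∂I01, ∀ l i, H l i t = c l i (idx l t) :=
    ae_all_iff.2 fun l => ae_all_iff.2 fun i => hHc l i
  filter_upwards [h3, h4] with s h3 h4
  filter_upwards [h3, h4, h5] with t h3 h4 h5
  simp only [h5]
  have h6 := ((RCLike.continuous_ofReal (K := 𝕜)).tendsto _).comp h3
  have h7 := ((RCLike.continuous_ofReal (K := 𝕜)).tendsto _).comp h4
  have h8 := h6.add (h7.mul_const RCLike.I)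
  refine h8.congr fun l => ?_
  simp only [Function.comp_apply]
  exact RCLike.re_add_im _

end r

end Pool.Agent.Q197.LB
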