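import Mathlib
import Pool.Agent.Helper234.LInfS.Square
import Pool.Agent.Helper234.LInfS.Decomp
import Pool.Agent.Q197.LB.Avg
import Pool.Agent.Q197.LB.Row
import Pool.Agent.Q197.LB.BZ

open MeasureTheory Filter Topology

namespace Pool.Agent.Q197.LB

open Pool.Agent.Helper234.LInfS Pool.Agent.Helper234.LInf

variable {𝕜 : Type} [RCLike 𝕜]

section r
variable {r : ENNReal} [Fact (1 ≤ r)]

/-- uniqueness of the limit function -/
theorem lim_unique (G : ℕ → ℝ → Lp 𝕜 r I01) (v w : Lp (Lp 𝕜 r I01) ⊤ I01)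
    (hv : ∀ᵐ s ∂I01, ∀ᵐ t ∂I01, Tendsto (fun l => G l s t) atTop (𝓝 (v s t)))
    (hw : ∀ᵐ s ∂I01, ∀ᵐ t ∂I01, Tendsto (fun l => G l s t) atTop (𝓝 (w s t))) : v = w := by
  apply Lp.ext
  filter_upwards [hv, hw] with s h1 h2
  apply Lp.ext
  filter_upwards [h1, h2] with t h3 h4
  exact tendsto_nhds_unique h3 h4

theorem wt_idx (l k : ℕ) (hk : k < 2 ^ l) : wt (idx l) k = (2 ^ l)⁻¹ := real_piece l k hk

/-- the Bochner space is complemented in the bounded sequences of the sequence space -/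
theorem L_compl_Z (𝕜 : Type) [RCLike 𝕜] (hr : r ≠ ⊤) :
    ∃ (i : Lp (Lp 𝕜 r I01) ⊤ I01 →L[𝕜] lp (fun _ : ℕ => lp (fun _ : ℕ => 𝕜) r) ⊤)
      (p : lp (fun _ : ℕ => lp (fun _ : ℕ => 𝕜) r) ⊤ →L[𝕜] Lp (Lp 𝕜 r I01) ⊤ I01),
      ∀ x, p (i x) = x := by
  have hp := r_pos hr
  choose π hπ hπb using fun l => exists_pi 𝕜 hr (idx l) (measurable_idx l)
  choose ι hι hιb using fun l => exists_iota 𝕜 hr (idx l) (measurable_idx l)
  choose avg havg havgb using fun l i => exists_avg 𝕜 (X := Lp 𝕜 r I01) l i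
  choose stp hstp hstpb using fun m => exists_step 𝕜 (X := Lp 𝕜 r I01) m
  obtain ⟨lim, hlim, hlimb⟩ := exists_limOp (𝕜 := 𝕜) hr
  -- notation
  let Z := lp (fun _ : ℕ => lp (fun _ : ℕ => 𝕜) r) ⊤
  let L := Lp (Lp 𝕜 r I01) ⊤ I01
  -- the embedding
  let J : L →L[𝕜] Z := toLinf (fun N => (π (Nat.unpair N).1).comp
    (avg (Nat.unpair N).1 (Nat.unpair N).2)) 1 (fun N f => by
      refine (hπb _ _).trans ?_
      rw [one_mul]
      exact havgb _ _ f)
  have hJ : ∀ f l i, J f (Nat.pair l i) = π l (avg l i f) := by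
    intro f l i
    show (π (Nat.unpair (Nat.pair l i)).1).comp
      (avg (Nat.unpair (Nat.pair l i)).1 (Nat.unpair (Nat.pair l i)).2) f = _
    rw [Nat.unpair_pair]
    rfl
  -- the step function operators
  let R : ℕ → Z →L[𝕜] L := fun m => (stp m).comp
    (toLinf (fun i => (ι m).comp (evalL 𝕜 _ (Nat.pair m i))) 1 (fun i z => by
      refine (hιb _ _).trans ?_
      rw [one_mul, one_mul]
      exact norm_coord_le z (Nat.pair m i)))
  have hR : ∀ m z, R m z =ᵐ[I01] fun s => ι m (z (Nat.pair m (idx m s))) := fun m z => hstp m _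
  have hRb : ∀ m z, ‖R m z‖ ≤ ‖z‖ := by
    intro m z
    refine (hstpb m _).trans ?_
    rw [one_mul]
    refine lp.norm_le_of_forall_le (norm_nonneg _) fun i => ?_
    refine (hιb m _).trans ?_
    rw [one_mul]
    exact norm_coord_le z (Nat.pair m i)
  -- the coefficients
  have hcb : ∀ l i m z, ‖π l (avg l i (R m z))‖ ≤ ‖z‖ := by
    intro l i m z
    refine (hπb _ _).trans ?_
    rw [one_mul]
    refine (havgb _ _ _).trans ?_
    rw [one_mul]
    exact hRb m z
  let D : ℕ → ℕ → Z →L[𝕜] Z := fun l i => toLinf (fun m => ((π l).comp (avg l i)).comp (R m)) 1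
    (fun m z => by rw [one_mul]; exact hcb l i m z)
  have hD : ∀ l i z, ‖D l i z‖ ≤ ‖z‖ := fun l i z =>
    lp.norm_le_of_forall_le (norm_nonneg _) fun m => hcb l i m z
  let C : ℕ → ℕ → Z →L[𝕜] lp (fun _ : ℕ => 𝕜) r := fun l i => lim.comp (D l i)
  have hC : ∀ l i z, ‖C l i z‖ ≤ ‖z‖ := fun l i z => (hlimb _).trans (hD l i z)
  have hCl : ∀ l i z k, Tendsto (fun m => π l (avg l i (R m z)) k) (hyperfilter ℕ : Filter ℕ)
      (𝓝 (C l i z k)) := fun l i z k => hlim (D l i z) k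
  -- consistency
  let W : ℕ → ℕ → 𝕜 := fun l k => ((wt (idx l) k ^ (-(1 / r.toReal)) : ℝ) : 𝕜)
  have hWπ : ∀ l k (u : Lp 𝕜 r I01), k < 2 ^ l →
      W l k * π l u k = (2 : ℝ) ^ l • ∫ t in idx l ⁻¹' {k}, u t ∂I01 := by
    intro l k u hk
    have h0 : (0 : ℝ) < wt (idx l) k := by rw [wt_idx l k hk]; positivity
    rw [hπ, ← mul_assoc, RCLike.real_smul_eq_coe_mul]
    congr 1
    rw [← RCLike.ofReal_mul, ← Real.rpow_add h0]
    congr 1
    have : -(1 / r.toReal) + (1 / r.toReal - 1) = -1 := by ring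
    rw [this, Real.rpow_neg_one, wt_idx l k hk, inv_inv]
  have hcons : ∀ l i k (f : L), k < 2 ^ l → W l k * π l (avg l i f) k =
      (W (l + 1) (2 * k) * π (l + 1) (avg (l + 1) (2 * i) f) (2 * k) +
      W (l + 1) (2 * k + 1) * π (l + 1) (avg (l + 1) (2 * i) f) (2 * k + 1) +
      W (l + 1) (2 * k) * π (l + 1) (avg (l + 1) (2 * i + 1) f) (2 * k) +
      W (l + 1) (2 * k + 1) * π (l + 1) (avg (l + 1) (2 * i + 1) f) (2 * k + 1)) / 4 := by
    intro l i k f hk
    have hpw : (2 : ℕ) ^ (l + 1) = 2 * 2 ^ l := by rw [pow_succ]; ring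
    rw [hWπ l k _ hk, hWπ (l + 1) (2 * k) _ (by omega), hWπ (l + 1) (2 * k + 1) _ (by omega),
      hWπ (l + 1) (2 * k) _ (by omega), hWπ (l + 1) (2 * k + 1) _ (by omega)]
    have e1 : avg l i f = (1 / 2 : ℝ) • (avg (l + 1) (2 * i) f + avg (l + 1) (2 * i + 1) f) := by
      rw [havg, havg, havg]
      exact split_avg (fun s => f s) (integrable_Linf f) l i
    have e2 : ∫ t in idx l ⁻¹' {k}, (avg l i f) t ∂I01 =
        (1 / 2 : ℝ) • (∫ t in idx l ⁻¹' {k}, (avg (l + 1) (2 * i) f) t ∂I01 +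
          ∫ t in idx l ⁻¹' {k}, (avg (l + 1) (2 * i + 1) f) t ∂I01) := by
      rw [← integral_add (integrable_Lr (avg (l + 1) (2 * i) f)).integrableOn
        (integrable_Lr (avg (l + 1) (2 * i + 1) f)).integrableOn, ← integral_smul]
      refine integral_congr_ae (ae_restrict_of_ae ?_)
      rw [e1]
      filter_upwards [Lp.coeFn_smul (1 / 2 : ℝ) (avg (l + 1) (2 * i) f + avg (l + 1) (2 * i + 1) f),
        Lp.coeFn_add (avg (l + 1) (2 * i) f) (avg (l + 1) (2 * i + 1) f)] with t h1 h2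
      rw [h1, Pi.smul_apply, h2, Pi.add_apply]
    rw [e2, smul_comm, smul_add,
      split_avg (fun t => (avg (l + 1) (2 * i) f) t) (integrable_Lr _) l k,
      split_avg (fun t => (avg (l + 1) (2 * i + 1) f) t) (integrable_Lr _) l k]
    simp only [RCLike.real_smul_eq_coe_mul]
    push_cast
    ring
  have hconsC : ∀ z l i k, i < 2 ^ l → k < 2 ^ l → W l k * C l i z k =
      (W (l + 1) (2 * k) * C (l + 1) (2 * i) z (2 * k) +
      W (l + 1) (2 * k + 1) * C (l + 1) (2 * i) z (2 * k + 1) +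
      W (l + 1) (2 * k) * C (l + 1) (2 * i + 1) z (2 * k) +
      W (l + 1) (2 * k + 1) * C (l + 1) (2 * i + 1) z (2 * k + 1)) / 4 := by
    intro z l i k _ hk
    have h1 := (hCl l i z k).const_mul (W l k)
    have h2 := (((((hCl (l + 1) (2 * i) z (2 * k)).const_mul (W (l + 1) (2 * k))).add
      ((hCl (l + 1) (2 * i) z (2 * k + 1)).const_mul (W (l + 1) (2 * k + 1)))).add
      ((hCl (l + 1) (2 * i + 1) z (2 * k)).const_mul (W (l + 1) (2 * k)))).add
      ((hCl (l + 1) (2 * i + 1) z (2 * k + 1)).const_mul (W (l + 1) (2 * k + 1)))).div_const 4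
    refine tendsto_nhds_unique h1 (h2.congr fun m => ?_)
    exact (hcons l i k (R m z) hk).symm
  have hex : ∀ z : Z, ∃ v : L, ‖v‖ ≤ ‖z‖ ∧ ∀ᵐ s ∂I01, ∀ᵐ t ∂I01,
      Tendsto (fun l => (ι l (C l (idx l s) z)) t) atTop (𝓝 (v s t)) := by
    intro z
    exact exists_lim hr (fun l i => ι l (C l i z)) ‖z‖ (norm_nonneg _) (fun l i => by
      refine (hιb _ _).trans ?_
      rw [one_mul]
      exact hC l i z) (fun l i k => W l k * C l i z k) (fun l i => hι l (C l i z)) (hconsC z)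
  choose Q hQb hQ using hex
  let Q0 : Z →ₗ[𝕜] L :=
    { toFun := Q
      map_add' := by
        intro z w
        refine lim_unique (fun l s => ι l (C l (idx l s) (z + w))) _ _ (hQ (z + w)) ?_
        have h0 : ∀ᵐ t ∂I01, ∀ l i, (ι l (C l i (z + w))) t =
            (ι l (C l i z)) t + (ι l (C l i w)) t := by
          refine ae_all_iff.2 fun l => ae_all_iff.2 fun i => ?_
          rw [map_add, map_add]
          exact Lp.coeFn_add _ _
        filter_upwards [hQ z, hQ w, Lp.coeFn_add (Q z) (Q w)] with s h1 h2 h3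
        rw [h3, Pi.add_apply]
        filter_upwards [h0, h1, h2, Lp.coeFn_add (Q z s) (Q w s)] with t h4 h5 h6 h7
        rw [h7, Pi.add_apply]
        simp only [h4]
        exact h5.add h6
      map_smul' := by
        intro c z
        refine lim_unique (fun l s => ι l (C l (idx l s) (c • z))) _ _ (hQ (c • z)) ?_
        have h0 : ∀ᵐ t ∂I01, ∀ l i, (ι l (C l i (c • z))) t = c • (ι l (C l i z)) t := by
          refine ae_all_iff.2 fun l => ae_all_iff.2 fun i => ?_
          rw [map_smul, map_smul]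
          exact Lp.coeFn_smul _ _
        rw [RingHom.id_apply]
        filter_upwards [hQ z, Lp.coeFn_smul c (Q z)] with s h1 h3
        rw [h3, Pi.smul_apply]
        filter_upwards [h0, h1, Lp.coeFn_smul c (Q z s)] with t h4 h5 h7
        rw [h7, Pi.smul_apply]
        simp only [h4]
        exact h5.const_smul c }
  let P : Z →L[𝕜] L := Q0.mkContinuous 1 (fun z => by rw [one_mul]; exact hQb z)
  refine ⟨J, P, fun f => ?_⟩
  -- coefficients of an embedded function
  have hιπ : ∀ l (u : Lp 𝕜 r I01), (ι l (π l u)) =ᵐ[I01]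
      fun t => (2 : ℝ) ^ l • ∫ x in idx l ⁻¹' {idx l t}, u x ∂I01 := by
    intro l u
    filter_upwards [hι l (π l u), I01_ae_mem] with t h1 h2
    rw [h1]
    exact hWπ l (idx l t) u (idx_lt l h2)
  have hCJ : ∀ l i, C l i (J f) = π l (avg l i f) := by
    intro l i
    ext k
    have h1 := hCl l i (J f) k
    have h2 : ∀ᶠ m in (hyperfilter ℕ : Filter ℕ), π l (avg l i f) k =
        π l (avg l i (R m (J f))) k := by
      have h3 : ∀ᶠ m in atTop, π l (avg l i f) k = π l (avg l i (R m (J f))) k := by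
        filter_upwards [eventually_ge_atTop l] with m hm
        rw [hπ, hπ, havg, havg]
        congr 1
        -- the functional `u ↦ ∫_{piece} u`
        have hφ : ∃ φ : Lp 𝕜 r I01 →L[ℝ] 𝕜, ∀ u, φ u = ∫ t in idx l ⁻¹' {k}, u t ∂I01 := by
          by_cases hk : k < 2 ^ l
          · obtain ⟨c, hc⟩ := exists_coord (𝕜 := 𝕜) r k
            refine ⟨(((W l k * ((2 : 𝕜) ^ l)⁻¹) • (c.comp (π l)))).restrictScalars ℝ, fun u => ?_⟩
            show (W l k * ((2 : 𝕜) ^ l)⁻¹) * c (π l u) = _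
            rw [hc]
            have := hWπ l k u hk
            rw [RCLike.real_smul_eq_coe_mul] at this
            have h2l : ((2 : 𝕜) ^ l) ≠ 0 := pow_ne_zero l two_ne_zero
            calc (W l k * ((2 : 𝕜) ^ l)⁻¹) * π l u k = ((2 : 𝕜) ^ l)⁻¹ * (W l k * π l u k) := by ring
              _ = _ := by
                rw [this]
                push_cast
                rw [← mul_assoc, inv_mul_cancel₀ h2l, one_mul]
          · refine ⟨0, fun u => ?_⟩
            have h0 : I01.restrict (idx l ⁻¹' {k}) = 0 :=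
              Measure.restrict_eq_zero.2 (I01_piece_zero l k hk)
            rw [h0]; simp
        obtain ⟨φ, hφ⟩ := hφ
        rw [← hφ, ← hφ, map_smul, map_smul,
          ← φ.integral_comp_comm (integrable_Linf f).integrableOn,
          ← φ.integral_comp_comm (integrable_Linf (R m (J f))).integrableOn]
        congr 1
        have h4 : ∀ᵐ s ∂I01, φ ((R m (J f)) s) =
            (2 : ℝ) ^ m • ∫ x in idx m ⁻¹' {idx m s}, φ (f x) ∂I01 := by
          filter_upwards [hR m (J f)] with s hs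
          rw [hs, hJ, hφ, integral_congr_ae (ae_restrict_of_ae (hιπ m _)),
            cond_avg (fun t => (avg m (idx m s) f) t) (integrable_Lr _) l m k hm, ← hφ, havg,
            map_smul, φ.integral_comp_comm (integrable_Linf f).integrableOn]
        rw [integral_congr_ae (ae_restrict_of_ae h4)]
        exact (cond_avg (fun s => φ (f s)) (φ.integrable_comp (integrable_Linf f)) l m i hm).symm
      refine Filter.Eventually.filter_mono ?_ h3
      rw [← Nat.cofinite_eq_atTop]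
      exact hyperfilter_le_cofinite
    exact tendsto_nhds_unique h1 (tendsto_const_nhds.congr' h2)
  have hQJ := hQ (J f)
  show Q (J f) = f
  apply Lp.ext
  filter_upwards [hQJ, dyadic_int (fun s => f s) (integrable_Linf f)] with s h1 h2
  -- `h2`: averages converge in norm
  have h3 := dyadic_int (fun t => (f s) t) (integrable_Lr (f s))
  have h4 : ∀ᵐ t ∂I01, ∀ l, (ι l (π l (f s))) t =
      (2 : ℝ) ^ l • ∫ x in idx l ⁻¹' {idx l t}, (f s) x ∂I01 := ae_all_iff.2 fun l => hιπ l (f s)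
  have h5 : ∀ᵐ t ∂I01, ∀ l, (ι l (π l (avg l (idx l s) f - f s))) t =
      (ι l (π l (avg l (idx l s) f))) t - (ι l (π l (f s))) t := by
    refine ae_all_iff.2 fun l => ?_
    rw [map_sub, map_sub]
    exact Lp.coeFn_sub _ _
  have h6 : ∀ᵐ t ∂I01, Tendsto (fun l => (ι l (π l (avg l (idx l s) f - f s))) t) atTop
      (𝓝 ((Q (J f) s - f s : Lp 𝕜 r I01) t)) := by
    filter_upwards [h1, h3, h4, h5, Lp.coeFn_sub (Q (J f) s) (f s)] with t g1 g3 g4 g5 g6
    rw [g6, Pi.sub_apply]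
    simp only [g5]
    refine Tendsto.sub ?_ ?_
    · refine g1.congr fun l => ?_
      rw [hCJ]
    · refine g3.congr fun l => ?_
      rw [g4]
  have h7 : eLpNorm (fun t => (Q (J f) s - f s : Lp 𝕜 r I01) t) r I01 ≤ 0 := by
    refine (Lp.eLpNorm_lim_le_liminf_eLpNorm
      (fun l => Lp.aestronglyMeasurable (ι l (π l (avg l (idx l s) f - f s)))) _ h6).trans ?_
    have h8 : Tendsto (fun l => ENNReal.ofReal ‖avg l (idx l s) f - f s‖) atTop (𝓝 0) := by
      have h9 : Tendsto (fun l => avg l (idx l s) f - f s) atTop (𝓝 0) := by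
        have := h2.sub_const (f s)
        rw [sub_self] at this
        refine this.congr fun l => ?_
        rw [havg]
      have h10 := ENNReal.tendsto_ofReal h9.norm
      rwa [norm_zero, ENNReal.ofReal_zero] at h10
    rw [← h8.liminf_eq]
    refine liminf_le_liminf (Eventually.of_forall fun l => ?_)
    rw [← ofReal_norm_Lp]
    refine ENNReal.ofReal_le_ofReal ?_
    refine (hιb _ _).trans ?_
    rw [one_mul]
    refine (hπb _ _).trans ?_
    rw [one_mul]
  have h8 : ‖Q (J f) s - f s‖ ≤ 0 := by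
    rw [Lp.norm_def]
    have : eLpNorm (fun t => (Q (J f) s - f s : Lp 𝕜 r I01) t) r I01 = 0 := le_antisymm h7 bot_le
    rw [this, ENNReal.toReal_zero]
  exact sub_eq_zero.1 (norm_le_zero_iff.1 h8)

/-- `L_∞(L_r) ≃ B_{r,∞}` -/
theorem main (𝕜 : Type) [RCLike 𝕜] (hr : r ≠ ⊤) :
    Nonempty (Lp (Lp 𝕜 r I01) ⊤ I01 ≃L[𝕜]
      lp (fun n : ℕ => PiLp r (fun _ : Fin (n + 1) => 𝕜)) ⊤) := by
  obtain ⟨i, p, hip⟩ := L_compl_Z 𝕜 hr
  obtain ⟨j, q, hjq⟩ := Z_compl_L 𝕜 hr
  obtain ⟨e⟩ := iso_BZ (r := r) 𝕜 hr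
  obtain ⟨e2⟩ := decomp (square_Lp 𝕜 (Lp 𝕜 r I01)) (square_lp 𝕜 (lp (fun _ : ℕ => 𝕜) r)) i p hip
    j q hjq
  exact ⟨e2.trans e.symm⟩

end r

end Pool.Agent.Q197.LB
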