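import Mathlib

open MeasureTheory

namespace Pool.Agent.Q197.LB

/-- Lebesgue measure on the unit interval. -/
noncomputable def lam : Measure ℝ := (volume : Measure ℝ).restrict (Set.Icc (0 : ℝ) 1)

/-- The Bochner space `L_∞([0,1], X)` is isomorphic to the `ℓ_∞`-sum of the spaces `E n`. -/
def IsoLinfSum (𝕜 : Type) [RCLike 𝕜] (X : Type) [NormedAddCommGroup X] [NormedSpace 𝕜 X]
    (E : ℕ → Type) [∀ n, NormedAddCommGroup (E n)] [∀ n, NormedSpace 𝕜 (E n)] : Prop :=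
  Nonempty (Lp X ⊤ lam ≃L[𝕜] lp E ⊤)

end Pool.Agent.Q197.LB
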